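import Mathlib

/-!
# Packing with determinants bounded from below

A finite set in a box of side `b` in `ℝ^n` whose difference set spans and all of whose
`n`-tuples of differences have determinant zero or at least `D` in absolute value has at most
`C_n b^n / D` points.
-/

namespace Pool.Agent.H65.CO

/-- the constant of the packing lemma -/
def packC : ℕ → ℝ
  | 0 => 1
  | (n + 1) => 2 ^ (n + 1) * packC n

theorem packC_pos (n : ℕ) : 0 < packC n := by
  induction n with
  | zero => simp [packC]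
  | succ n ih => simp only [packC]; positivity

private theorem Pack_sep {ι : Type*} (F : Finset ι) (g : ι → ℝ) (lam b : ℝ) (hlam : 0 < lam)
    (hlb : lam ≤ b)
    (hsep : ∀ x ∈ F, ∀ y ∈ F, x ≠ y → lam ≤ |g x - g y|)
    (hb : ∀ x ∈ F, ∀ y ∈ F, |g x - g y| ≤ b) : (F.card : ℝ) ≤ 2 * b / lam := by
  classical
  rcases F.eq_empty_or_nonempty with rfl | hne
  · simp only [Finset.card_empty, Nat.cast_zero]
    have : 0 < b := lt_of_lt_of_le hlam hlb
    positivity
  obtain ⟨m, hm, hmin⟩ := Finset.exists_min_image F g hne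
  have hinj : Set.InjOn (fun x => ⌊(g x - g m) / lam⌋₊) (F : Set ι) := by
    intro x hx y hy hxy
    by_contra hne'
    have hs := hsep x hx y hy hne'
    have h1 : 0 ≤ (g x - g m) / lam := div_nonneg (sub_nonneg.2 (hmin x hx)) hlam.le
    have h2 : 0 ≤ (g y - g m) / lam := div_nonneg (sub_nonneg.2 (hmin y hy)) hlam.le
    have e1 := Nat.floor_le h1
    have e2 := Nat.lt_floor_add_one ((g x - g m) / lam)
    have e3 := Nat.floor_le h2
    have e4 := Nat.lt_floor_add_one ((g y - g m) / lam)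
    simp only at hxy
    rw [hxy] at e1 e2
    have h3 : |(g x - g m) / lam - (g y - g m) / lam| < 1 := by
      rw [abs_lt]; constructor <;> linarith
    have h4 : (g x - g m) / lam - (g y - g m) / lam = (g x - g y) / lam := by ring
    rw [h4, abs_div, abs_of_pos hlam, div_lt_one hlam] at h3
    linarith
  have hmaps : ∀ x ∈ F, (fun x => ⌊(g x - g m) / lam⌋₊) x ∈ Finset.range (⌊b / lam⌋₊ + 1) := by
    intro x hx
    rw [Finset.mem_range]
    have : ⌊(g x - g m) / lam⌋₊ ≤ ⌊b / lam⌋₊ := by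
      apply Nat.floor_le_floor
      have := le_trans (le_abs_self _) (hb x hx m hm)
      gcongr
    simp only
    omega
  have hcard := Finset.card_le_card_of_injOn _ hmaps hinj
  rw [Finset.card_range] at hcard
  have hbl : (⌊b / lam⌋₊ : ℝ) ≤ b / lam :=
    Nat.floor_le (div_nonneg (le_trans hlam.le hlb) hlam.le)
  have h1 : (1 : ℝ) ≤ b / lam := by rwa [le_div_iff₀ hlam, one_mul]
  have h2 : (F.card : ℝ) ≤ ⌊b / lam⌋₊ + 1 := by exact_mod_cast hcard
  have h3 : 2 * b / lam = b / lam + b / lam := by ring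
  rw [h3]; linarith

/-- the projection of `ℝ^(n+1)` along `u` to the coordinates other than `i₀` -/
private noncomputable def Pack_proj {n : ℕ} (u : Fin (n + 1) → ℝ) (i₀ : Fin (n + 1)) :
    (Fin (n + 1) → ℝ) →ₗ[ℝ] (Fin n → ℝ) where
  toFun x := fun j => x (i₀.succAbove j) - x i₀ / u i₀ * u (i₀.succAbove j)
  map_add' x y := by
    funext j; simp only [Pi.add_apply]; ring
  map_smul' c x := by
    funext j; simp only [Pi.smul_apply, smul_eq_mul, RingHom.id_apply]; ring

private theorem Pack_proj_apply {n : ℕ} (u : Fin (n + 1) → ℝ) (i₀ : Fin (n + 1))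
    (x : Fin (n + 1) → ℝ) (j : Fin n) :
    Pack_proj u i₀ x j = x (i₀.succAbove j) - x i₀ / u i₀ * u (i₀.succAbove j) := rfl

private theorem Pack_proj_surj {n : ℕ} (u : Fin (n + 1) → ℝ) (i₀ : Fin (n + 1)) :
    Function.Surjective (Pack_proj u i₀) := by
  intro y
  refine ⟨i₀.insertNth 0 y, ?_⟩
  funext j
  rw [Pack_proj_apply]
  simp

private theorem Pack_det {n : ℕ} (u : Fin (n + 1) → ℝ) (i₀ : Fin (n + 1)) (hu : u i₀ ≠ 0)
    (w : Fin n → Fin (n + 1) → ℝ) :
    |Matrix.det (Matrix.of (Fin.cons u w : Fin (n + 1) → Fin (n + 1) → ℝ))| =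
      |u i₀| * |Matrix.det (Matrix.of (fun j => Pack_proj u i₀ (w j)))| := by
  set A : Matrix (Fin (n + 1)) (Fin (n + 1)) ℝ :=
    Matrix.of (Fin.cons u w : Fin (n + 1) → Fin (n + 1) → ℝ) with hA
  set B : Matrix (Fin (n + 1)) (Fin (n + 1)) ℝ :=
    Matrix.of (Fin.cons u (fun j i => w j i - w j i₀ / u i₀ * u i) :
      Fin (n + 1) → Fin (n + 1) → ℝ) with hB
  have hAB : A.det = B.det := by
    refine Matrix.det_eq_of_forall_row_eq_smul_add_const
      (Fin.cons 0 (fun j => w j i₀ / u i₀) : Fin (n + 1) → ℝ) 0 (by simp) ?_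
    intro i j
    refine Fin.cases ?_ (fun i => ?_) i
    · simp [hA, hB]
    · simp only [hA, hB, Matrix.of_apply, Fin.cons_succ, Fin.cons_zero]
      ring
  have hBdet : B.det = (-1) ^ ((0 : Fin (n + 1)) + i₀ : ℕ) * u i₀ *
      Matrix.det (Matrix.of (fun j => Pack_proj u i₀ (w j))) := by
    rw [Matrix.det_succ_column B i₀, Fin.sum_univ_succ]
    have hz : ∀ i : Fin n, (-1 : ℝ) ^ ((i.succ : ℕ) + (i₀ : ℕ)) * B i.succ i₀ *
        (B.submatrix i.succ.succAbove i₀.succAbove).det = 0 := by
      intro i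
      have : B i.succ i₀ = 0 := by
        simp only [hB, Matrix.of_apply, Fin.cons_succ]
        field_simp
        ring
      rw [this]; ring
    rw [Finset.sum_eq_zero (fun i _ => hz i), add_zero]
    have h0 : B 0 i₀ = u i₀ := by simp [hB]
    rw [h0]
    congr 2
  rw [hAB, hBdet, abs_mul, abs_mul, abs_pow, abs_neg, abs_one, one_pow, one_mul]

/-- **Packing lemma.** -/
theorem pack (n : ℕ) : ∀ (A : Finset (Fin n → ℝ)) (b D : ℝ), 0 < b → 0 < D →
    A.Nonempty →
    (∀ x ∈ A, ∀ y ∈ A, ∀ i, |x i - y i| ≤ b) →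
    (Submodule.span ℝ {v | ∃ x ∈ A, ∃ y ∈ A, v = x - y} = ⊤) →
    (∀ w : Fin n → (Fin n → ℝ), (∀ j, ∃ x ∈ A, ∃ y ∈ A, w j = x - y) →
      Matrix.det (Matrix.of w) = 0 ∨ D ≤ |Matrix.det (Matrix.of w)|) →
    (A.card : ℝ) * D ≤ packC n * b ^ n := by
  classical
  induction n with
  | zero =>
    intro A b D hb hD hne _ _ hdet
    have hcard : A.card ≤ 1 := Finset.card_le_one_of_subsingleton A
    have hD1 : D ≤ 1 := by
      have := hdet (fun i => i.elim0) (fun i => i.elim0)
      simpa using this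
    have hc : (A.card : ℝ) ≤ 1 := by exact_mod_cast hcard
    simp only [packC, pow_zero, mul_one]
    calc (A.card : ℝ) * D ≤ 1 * 1 := by gcongr
      _ = 1 := by ring
  | succ n ih =>
    intro A b D hb hD hne hbox hspan hdet
    -- pairs of distinct elements
    have hpair : ((A ×ˢ A).filter (fun p => p.1 ≠ p.2)).Nonempty := by
      by_contra hcon
      rw [Finset.not_nonempty_iff_eq_empty, Finset.filter_eq_empty_iff] at hcon
      have hall : ∀ v ∈ {v : Fin (n + 1) → ℝ | ∃ x ∈ A, ∃ y ∈ A, v = x - y}, v = 0 := by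
        rintro v ⟨x, hx, y, hy, rfl⟩
        have := hcon (x := (x, y)) (Finset.mem_product.2 ⟨hx, hy⟩)
        simp only [ne_eq, not_not] at this
        rw [this, sub_self]
      have hbot : Submodule.span ℝ {v : Fin (n + 1) → ℝ | ∃ x ∈ A, ∃ y ∈ A, v = x - y} = ⊥ :=
        Submodule.span_eq_bot.2 hall
      rw [hspan] at hbot
      exact top_ne_bot hbot
    obtain ⟨⟨p, q⟩, hpq, hmin⟩ := Finset.exists_min_image _
      (fun p : (Fin (n + 1) → ℝ) × (Fin (n + 1) → ℝ) => ‖p.1 - p.2‖) hpair
    rw [Finset.mem_filter, Finset.mem_product] at hpq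
    obtain ⟨⟨hp, hq⟩, hne'⟩ := hpq
    simp only at hp hq hne'
    set u := p - q with hu
    have hu0 : u ≠ 0 := sub_ne_zero.2 hne'
    obtain ⟨i₀, hi₀⟩ : ∃ i₀, ‖u i₀‖ = ‖u‖ := by
      obtain ⟨i, hi, hmax⟩ := Finset.exists_max_image (Finset.univ : Finset (Fin (n + 1)))
        (fun i => ‖u i‖) ⟨0, Finset.mem_univ _⟩
      refine ⟨i, le_antisymm (norm_le_pi_norm u i) ?_⟩
      rw [pi_norm_le_iff_of_nonneg (norm_nonneg _)]
      exact fun j => hmax j (Finset.mem_univ _)
    have hlam : 0 < ‖u‖ := norm_pos_iff.2 hu0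
    have hui : u i₀ ≠ 0 := by
      intro h
      rw [h, norm_zero] at hi₀
      exact hlam.ne hi₀
    have hlb : ‖u‖ ≤ b := by
      rw [← hi₀]
      exact hbox p hp q hq i₀
    have hucoord : ∀ j, |u j| ≤ |u i₀| := by
      intro j
      have h1 := norm_le_pi_norm u j
      rw [← hi₀] at h1
      exact h1
    have hlam' : ‖u‖ = |u i₀| := hi₀.symm
    have hminA : ∀ x ∈ A, ∀ y ∈ A, x ≠ y → ‖u‖ ≤ ‖x - y‖ := by
      intro x hx y hy hxy
      exact hmin (x, y) (Finset.mem_filter.2 ⟨Finset.mem_product.2 ⟨hx, hy⟩, hxy⟩)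
    set f := Pack_proj u i₀ with hf
    -- fibres
    have hfib : ∀ z ∈ A.image f, ((A.filter (fun x => f x = z)).card : ℝ) ≤ 2 * b / ‖u‖ := by
      intro z _
      refine Pack_sep _ (fun x => x i₀) _ _ hlam hlb ?_ ?_
      · intro x hx y hy hxy
        rw [Finset.mem_filter] at hx hy
        have hd : ∀ j, (x - y) j = (x - y) i₀ / u i₀ * u j := by
          intro j
          have hfe : f (x - y) = 0 := by rw [map_sub, hx.2, hy.2, sub_self]
          rcases Fin.eq_self_or_eq_succAbove i₀ j with rfl | ⟨j', rfl⟩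
          · field_simp
          · have := congrFun hfe j'
            rw [hf, Pack_proj_apply] at this
            simp only [Pi.zero_apply] at this
            linarith
        have h1 := hminA x hx.1 y hy.1 hxy
        have h2 : ‖x - y‖ ≤ |(x - y) i₀| := by
          rw [pi_norm_le_iff_of_nonneg (abs_nonneg _)]
          intro j
          rw [hd j, Real.norm_eq_abs, abs_mul, abs_div]
          calc |(x - y) i₀| / |u i₀| * |u j| ≤ |(x - y) i₀| / |u i₀| * |u i₀| :=
                mul_le_mul_of_nonneg_left (hucoord j) (by positivity)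
            _ = |(x - y) i₀| := by
                have : |u i₀| ≠ 0 := abs_ne_zero.2 hui
                field_simp
        have h3 : |(x - y) i₀| = |x i₀ - y i₀| := by rw [Pi.sub_apply]
        rw [h3] at h2
        exact le_trans h1 h2
      · intro x hx y hy
        rw [Finset.mem_filter] at hx hy
        exact hbox x hx.1 y hy.1 i₀
    -- count
    have hcount : (A.card : ℝ) ≤ 2 * b / ‖u‖ * ((A.image f).card : ℝ) := by
      rw [Finset.card_eq_sum_card_image f A, Nat.cast_sum]
      calc ∑ z ∈ A.image f, ((A.filter (fun x => f x = z)).card : ℝ)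
          ≤ ∑ _z ∈ A.image f, 2 * b / ‖u‖ := Finset.sum_le_sum hfib
        _ = 2 * b / ‖u‖ * ((A.image f).card : ℝ) := by
            rw [Finset.sum_const, nsmul_eq_mul]; ring
    -- induction
    have hih := ih (A.image f) (2 * b) (D / ‖u‖) (by positivity) (by positivity)
      (hne.image f) ?_ ?_ ?_
    · have h1 : (A.card : ℝ) * D ≤ 2 * b * (((A.image f).card : ℝ) * (D / ‖u‖)) := by
        calc (A.card : ℝ) * D ≤ (2 * b / ‖u‖ * ((A.image f).card : ℝ)) * D := by gcongr
          _ = 2 * b * (((A.image f).card : ℝ) * (D / ‖u‖)) := by ring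
      calc (A.card : ℝ) * D ≤ 2 * b * (((A.image f).card : ℝ) * (D / ‖u‖)) := h1
        _ ≤ 2 * b * (packC n * (2 * b) ^ n) := by gcongr
        _ = packC (n + 1) * b ^ (n + 1) := by
            simp only [packC]; rw [mul_pow]; ring
    · intro x hx y hy j
      rw [Finset.mem_image] at hx hy
      obtain ⟨x', hx', rfl⟩ := hx
      obtain ⟨y', hy', rfl⟩ := hy
      rw [hf, Pack_proj_apply, Pack_proj_apply]
      have e : x' (i₀.succAbove j) - x' i₀ / u i₀ * u (i₀.succAbove j) -
          (y' (i₀.succAbove j) - y' i₀ / u i₀ * u (i₀.succAbove j)) =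
          (x' (i₀.succAbove j) - y' (i₀.succAbove j)) -
            (x' i₀ - y' i₀) / u i₀ * u (i₀.succAbove j) := by ring
      rw [e]
      have h1 := hbox x' hx' y' hy' (i₀.succAbove j)
      have h2 : |(x' i₀ - y' i₀) / u i₀ * u (i₀.succAbove j)| ≤ b := by
        rw [abs_mul, abs_div]
        calc |x' i₀ - y' i₀| / |u i₀| * |u (i₀.succAbove j)|
            ≤ |x' i₀ - y' i₀| / |u i₀| * |u i₀| :=
              mul_le_mul_of_nonneg_left (hucoord _) (by positivity)
          _ = |x' i₀ - y' i₀| := by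
              have : |u i₀| ≠ 0 := abs_ne_zero.2 hui
              field_simp
          _ ≤ b := hbox x' hx' y' hy' i₀
      have h3 := abs_sub (x' (i₀.succAbove j) - y' (i₀.succAbove j))
        ((x' i₀ - y' i₀) / u i₀ * u (i₀.succAbove j))
      linarith
    · have himg : {v : Fin n → ℝ | ∃ x ∈ A.image f, ∃ y ∈ A.image f, v = x - y} =
          f '' {v : Fin (n + 1) → ℝ | ∃ x ∈ A, ∃ y ∈ A, v = x - y} := by
        ext v
        simp only [Set.mem_ofPred_eq, Finset.mem_image, Set.mem_image]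
        constructor
        · rintro ⟨_, ⟨x, hx, rfl⟩, _, ⟨y, hy, rfl⟩, rfl⟩
          exact ⟨x - y, ⟨x, hx, y, hy, rfl⟩, by rw [map_sub]⟩
        · rintro ⟨_, ⟨x, hx, y, hy, rfl⟩, rfl⟩
          exact ⟨f x, ⟨x, hx, rfl⟩, f y, ⟨y, hy, rfl⟩, by rw [map_sub]⟩
      rw [himg, Submodule.span_image, hspan, Submodule.map_top]
      exact LinearMap.range_eq_top.2 (Pack_proj_surj u i₀)
    · intro w hw
      have hw' : ∀ j, ∃ v : Fin (n + 1) → ℝ, (∃ x ∈ A, ∃ y ∈ A, v = x - y) ∧ w j = f v := by
        intro j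
        obtain ⟨x, hx, y, hy, hxy⟩ := hw j
        rw [Finset.mem_image] at hx hy
        obtain ⟨x', hx', rfl⟩ := hx
        obtain ⟨y', hy', rfl⟩ := hy
        exact ⟨x' - y', ⟨x', hx', y', hy', rfl⟩, by rw [hxy, map_sub]⟩
      choose v hv hwv using hw'
      have hkey := hdet (Fin.cons u v) (by
        intro j
        refine Fin.cases ?_ (fun j => ?_) j
        · exact ⟨p, hp, q, hq, by simp [hu]⟩
        · simpa using hv j)
      have hd := Pack_det u i₀ hui v
      have hwe : w = fun j => Pack_proj u i₀ (v j) := by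
        funext j; rw [hwv j, hf]
      rw [← hwe, ← hlam'] at hd
      rcases hkey with h0 | h0
      · left
        rw [h0, abs_zero] at hd
        have := (mul_eq_zero.1 hd.symm).resolve_left hlam.ne'
        exact abs_eq_zero.1 this
      · right
        rw [hd] at h0
        rw [div_le_iff₀ hlam]
        linarith

end Pool.Agent.H65.CO
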