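import Pool.Agent.H65.CO.Interval
import Pool.Agent.H65.CO.Pack

/-!
# Upper bound for the number of polynomials with values in short columns
-/

namespace Pool.Agent.H65.CO

open Polynomial Module

private theorem Count_core (k : ℕ) : ∃ c : ℝ, 0 < c ∧ ∀ (A : Finset ℝ), k < A.card →
    ∀ (s : ℝ → ℝ) (Y : ℕ), 1 ≤ Y → ∀ S : Finset ℝ[X], S.Nonempty → (∀ f ∈ S, f.natDegree ≤ k) →
    (∀ f ∈ S, ∀ x ∈ A, ∃ m : ℕ, 1 ≤ m ∧ m ≤ Y ∧ f.eval x = s x + m) →
    ∃ n : ℕ, n ≤ k + 1 ∧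
      (S.card : ℝ) * (c * (A.card : ℝ) ^ (n * (n - 1) / 2)) ≤ packC n * (Y : ℝ) ^ n := by
  classical
  obtain ⟨c, hc, hlow⟩ := det_lower k
  refine ⟨c, hc, ?_⟩
  intro A hA s Y hY S hSne hSdeg hS
  set G : Set ℝ[X] := {w | ∃ f ∈ S, ∃ g ∈ S, w = f - g} with hG
  have hGfin : G.Finite := by
    have h1 : G = (fun p : ℝ[X] × ℝ[X] => p.1 - p.2) '' ((S : Set ℝ[X]) ×ˢ (S : Set ℝ[X])) := by
      ext w
      constructor
      · rintro ⟨f, hf, g, hg, rfl⟩
        exact ⟨(f, g), ⟨hf, hg⟩, rfl⟩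
      · rintro ⟨⟨f, g⟩, ⟨hf, hg⟩, rfl⟩
        exact ⟨f, hf, g, hg, rfl⟩
    rw [h1]
    exact ((Finset.finite_toSet S).prod (Finset.finite_toSet S)).image _
  set W : Submodule ℝ ℝ[X] := Submodule.span ℝ G with hWdef
  have : FiniteDimensional ℝ W := FiniteDimensional.span_of_finite ℝ hGfin
  have hWle : W ≤ degreeLE ℝ k := by
    rw [hWdef, Submodule.span_le]
    rintro w ⟨f, hf, g, hg, rfl⟩
    rw [SetLike.mem_coe, mem_degreeLE, ← natDegree_le_iff_degree_le]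
    exact le_trans (natDegree_sub_le _ _) (max_le (hSdeg f hf) (hSdeg g hg))
  have hW : ∀ w ∈ W, w.natDegree ≤ k := by
    intro w hw
    rw [natDegree_le_iff_degree_le]
    exact mem_degreeLE.1 (hWle hw)
  have hn : finrank ℝ W ≤ k + 1 := by
    have hle : W ≤ degreeLT ℝ (k + 1) := by
      intro w hw
      rw [mem_degreeLT]
      refine lt_of_le_of_lt degree_le_natDegree ?_
      exact_mod_cast Nat.lt_succ_of_le (hW w hw)
    have : FiniteDimensional ℝ (degreeLT ℝ (k + 1)) :=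
      (degreeLTEquiv ℝ (k + 1)).symm.finiteDimensional
    have h1 := Submodule.finrank_mono hle
    rw [(degreeLTEquiv ℝ (k + 1)).finrank_eq, finrank_fin_fun] at h1
    exact h1
  obtain ⟨T, hTA, hinj, hdet⟩ := hlow W hW A hA
  refine ⟨finrank ℝ W, hn, ?_⟩
  set ev : ℝ[X] →ₗ[ℝ] (Fin (finrank ℝ W) → ℝ) := LinearMap.pi (fun j => leval (T j)) with hev
  have hevapp : ∀ f j, ev f j = f.eval (T j) := fun f j => rfl
  have hGW : ∀ f ∈ S, ∀ g ∈ S, f - g ∈ W := fun f hf g hg =>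
    Submodule.subset_span ⟨f, hf, g, hg, rfl⟩
  have hinjS : Set.InjOn ev (S : Set ℝ[X]) := by
    intro f hf g hg hfg
    have h1 : f - g = 0 := by
      refine hinj _ (hGW f hf g hg) fun j => ?_
      rw [← hevapp, map_sub, hfg, sub_self]
      rfl
    exact sub_eq_zero.1 h1
  have hcard : (S.image ev).card = S.card := Finset.card_image_of_injOn hinjS
  have hApos : (0 : ℝ) < (A.card : ℝ) := by
    exact_mod_cast (lt_of_le_of_lt (Nat.zero_le k) hA)
  have hYpos : (0 : ℝ) < (Y : ℝ) := by exact_mod_cast hY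
  have hmain := pack (finrank ℝ W) (S.image ev) (Y : ℝ)
    (c * (A.card : ℝ) ^ (finrank ℝ W * (finrank ℝ W - 1) / 2)) hYpos (by positivity)
    (hSne.image ev) ?_ ?_ ?_
  · rw [hcard] at hmain
    exact hmain
  · intro x hx y hy j
    rw [Finset.mem_image] at hx hy
    obtain ⟨f, hf, rfl⟩ := hx
    obtain ⟨g, hg, rfl⟩ := hy
    rw [hevapp, hevapp]
    obtain ⟨m, hm1, hmY, hfm⟩ := hS f hf (T j) (hTA j)
    obtain ⟨m', hm1', hmY', hgm⟩ := hS g hg (T j) (hTA j)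
    rw [hfm, hgm]
    have e1 : (1 : ℝ) ≤ m := by exact_mod_cast hm1
    have e2 : (m : ℝ) ≤ Y := by exact_mod_cast hmY
    have e3 : (1 : ℝ) ≤ m' := by exact_mod_cast hm1'
    have e4 : (m' : ℝ) ≤ Y := by exact_mod_cast hmY'
    rw [abs_le]; constructor <;> linarith
  · have himg : {v : Fin (finrank ℝ W) → ℝ | ∃ x ∈ S.image ev, ∃ y ∈ S.image ev, v = x - y} =
        ev '' G := by
      ext v
      simp only [Set.mem_ofPred_eq, Finset.mem_image, Set.mem_image, hG]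
      constructor
      · rintro ⟨_, ⟨x, hx, rfl⟩, _, ⟨y, hy, rfl⟩, rfl⟩
        exact ⟨x - y, ⟨x, hx, y, hy, rfl⟩, by rw [map_sub]⟩
      · rintro ⟨_, ⟨x, hx, y, hy, rfl⟩, rfl⟩
        exact ⟨ev x, ⟨x, hx, rfl⟩, ev y, ⟨y, hy, rfl⟩, by rw [map_sub]⟩
    rw [himg, Submodule.span_image, ← hWdef]
    have hinj' : Function.Injective (ev ∘ₗ W.subtype) := by
      rw [← LinearMap.ker_eq_bot, LinearMap.ker_eq_bot']
      intro w hw
      have h1 : (w : ℝ[X]) = 0 := by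
        refine hinj _ w.2 fun j => ?_
        have := congrFun hw j
        exact this
      exact Subtype.ext h1
    have hsurj := (LinearMap.injective_iff_surjective_of_finrank_eq_finrank
      (by rw [finrank_fin_fun])).1 hinj'
    rw [eq_top_iff]
    intro v _
    obtain ⟨w, hw⟩ := hsurj v
    exact ⟨w, w.2, hw⟩
  · intro w hw
    have hw' : ∀ j, ∃ f : ℝ[X], (∃ p ∈ S, ∃ q ∈ S, f = p - q) ∧ w j = ev f := by
      intro j
      obtain ⟨x, hx, y, hy, hxy⟩ := hw j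
      rw [Finset.mem_image] at hx hy
      obtain ⟨p, hp, rfl⟩ := hx
      obtain ⟨q, hq, rfl⟩ := hy
      exact ⟨p - q, ⟨p, hp, q, hq, rfl⟩, by rw [hxy, map_sub]⟩
    choose g hgS hgw using hw'
    have h1 : (Matrix.of w : Matrix (Fin (finrank ℝ W)) (Fin (finrank ℝ W)) ℝ) =
        Matrix.of fun i j => (g i).eval (T j) := by
      ext i j
      simp only [Matrix.of_apply]
      rw [hgw i, hevapp]
    rw [h1]
    refine hdet g ?_ ?_
    · intro i
      obtain ⟨p, hp, q, hq, hpq⟩ := hgS i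
      rw [hpq]; exact hGW p hp q hq
    · intro i x hx
      obtain ⟨p, hp, q, hq, hpq⟩ := hgS i
      obtain ⟨m, -, -, hfm⟩ := hS p hp x hx
      obtain ⟨m', -, -, hgm⟩ := hS q hq x hx
      refine ⟨(m : ℤ) - m', ?_⟩
      rw [hpq, eval_sub, hfm, hgm]
      push_cast; ring

/-- **Upper bound.** -/
theorem count_upper (k : ℕ) : ∃ C : ℝ, 0 < C ∧ ∀ (A : Finset ℝ), k < A.card →
    ∀ (s : ℝ → ℝ) (Y : ℕ), 1 ≤ Y → ∀ S : Finset ℝ[X], (∀ f ∈ S, f.natDegree ≤ k) →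
    (∀ f ∈ S, ∀ x ∈ A, ∃ m : ℕ, 1 ≤ m ∧ m ≤ Y ∧ f.eval x = s x + m) →
    (S.card : ℝ) ≤ C * ∑ r ∈ Finset.range (k + 1),
      (Y : ℝ) ^ (r + 1) / (A.card : ℝ) ^ (r * (r + 1) / 2) := by
  classical
  obtain ⟨c, hc, hcore⟩ := Count_core k
  have hPpos : 0 < ∑ n ∈ Finset.range (k + 2), packC n :=
    Finset.sum_pos (fun n _ => packC_pos n) ⟨0, Finset.mem_range.2 (by omega)⟩
  refine ⟨(∑ n ∈ Finset.range (k + 2), packC n) / c, div_pos hPpos hc, ?_⟩
  intro A hA s Y hY S hSdeg hS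
  have hApos : (0 : ℝ) < (A.card : ℝ) := by
    exact_mod_cast (lt_of_le_of_lt (Nat.zero_le k) hA)
  have hYpos : (0 : ℝ) < (Y : ℝ) := by exact_mod_cast hY
  have hY1 : (1 : ℝ) ≤ (Y : ℝ) := by exact_mod_cast hY
  have hterm : ∀ r ∈ Finset.range (k + 1),
      0 ≤ (Y : ℝ) ^ (r + 1) / (A.card : ℝ) ^ (r * (r + 1) / 2) := fun r _ => by positivity
  rcases S.eq_empty_or_nonempty with rfl | hSne
  · rw [Finset.card_empty, Nat.cast_zero]
    exact mul_nonneg (div_pos hPpos hc).le (Finset.sum_nonneg hterm)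
  obtain ⟨n, hn, hmain⟩ := hcore A hA s Y hY S hSne hSdeg hS
  have hAe : (0 : ℝ) < (A.card : ℝ) ^ (n * (n - 1) / 2) := by positivity
  have h1 : (S.card : ℝ) ≤ packC n / c * ((Y : ℝ) ^ n / (A.card : ℝ) ^ (n * (n - 1) / 2)) := by
    rw [← mul_assoc, mul_comm (S.card : ℝ) c, mul_assoc] at hmain
    rw [div_mul_div_comm, le_div_iff₀ (mul_pos hc hAe)]
    calc (S.card : ℝ) * (c * (A.card : ℝ) ^ (n * (n - 1) / 2))
        = c * ((S.card : ℝ) * (A.card : ℝ) ^ (n * (n - 1) / 2)) := by ring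
      _ ≤ packC n * (Y : ℝ) ^ n := hmain
  have h2 : packC n / c ≤ (∑ n ∈ Finset.range (k + 2), packC n) / c := by
    have := Finset.single_le_sum (f := packC) (fun n _ => (packC_pos n).le)
      (Finset.mem_range.2 (by omega : n < k + 2))
    gcongr
  have h3 : (Y : ℝ) ^ n / (A.card : ℝ) ^ (n * (n - 1) / 2) ≤
      ∑ r ∈ Finset.range (k + 1), (Y : ℝ) ^ (r + 1) / (A.card : ℝ) ^ (r * (r + 1) / 2) := by
    rcases Nat.eq_zero_or_pos n with rfl | hn0
    · have h4 := Finset.single_le_sum hterm (Finset.mem_range.2 (Nat.succ_pos k))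
      refine le_trans ?_ h4
      simpa using hY1
    · obtain ⟨r, rfl⟩ : ∃ r, n = r + 1 := ⟨n - 1, by omega⟩
      have h4 := Finset.single_le_sum hterm (Finset.mem_range.2 (by omega : r < k + 1))
      refine le_trans (le_of_eq ?_) h4
      rw [Nat.add_sub_cancel, mul_comm r (r + 1)]
  calc (S.card : ℝ) ≤ packC n / c * ((Y : ℝ) ^ n / (A.card : ℝ) ^ (n * (n - 1) / 2)) := h1
    _ ≤ (∑ n ∈ Finset.range (k + 2), packC n) / c *
        ∑ r ∈ Finset.range (k + 1), (Y : ℝ) ^ (r + 1) / (A.card : ℝ) ^ (r * (r + 1) / 2) :=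
      mul_le_mul h2 h3 (by positivity) (div_pos hPpos hc).le

end Pool.Agent.H65.CO
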