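import Mathlib

/-!
# Fekete points for a finite dimensional space of polynomials on a finite set
-/

namespace Pool.Agent.H65.CO

open Polynomial Module

private theorem Fekete_exists {n : ℕ} (k : ℕ) (pb : Fin n → ℝ[X])
    (hdeg : ∀ c : Fin n → ℝ, (∑ i, c i • pb i).natDegree ≤ k)
    (hli : LinearIndependent ℝ pb) (B : Finset ℝ) (hB : k < B.card) :
    ∃ y : Fin n → ℝ, (∀ j, y j ∈ B) ∧
      Matrix.det (Matrix.of fun j i => (pb i).eval (y j)) ≠ 0 := by
  classical
  set e : ℝ → Fin n → ℝ := fun x i => (pb i).eval x with he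
  have hspan : Submodule.span ℝ (e '' (B : Set ℝ)) = ⊤ := by
    by_contra hne
    obtain ⟨f, hf0, hf⟩ := Submodule.exists_le_ker_of_lt_top _ (lt_top_iff_ne_top.2 hne)
    apply hf0
    set c : Fin n → ℝ := fun i => f (Pi.single i 1) with hc
    have hfx : ∀ v : Fin n → ℝ, f v = ∑ i, c i * v i := by
      intro v
      conv_lhs => rw [pi_eq_sum_univ' v]
      rw [map_sum]
      refine Finset.sum_congr rfl fun i _ => ?_
      rw [map_smul, smul_eq_mul, mul_comm, hc]
    have hzero : ∑ i, c i • pb i = 0 := by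
      refine Polynomial.eq_zero_of_natDegree_lt_card_of_eval_eq_zero' _ B ?_
        (lt_of_le_of_lt (hdeg c) hB)
      intro x hx
      have h1 : f (e x) = 0 := hf (Submodule.subset_span ⟨x, hx, rfl⟩)
      rw [hfx] at h1
      rw [eval_finsetSum]
      simpa [he, eval_smul] using h1
    have hc0 : ∀ i, c i = 0 := by
      have := Fintype.linearIndependent_iff.1 hli c hzero
      exact this
    apply LinearMap.ext
    intro v
    rw [hfx]
    simp [hc0]
  obtain ⟨f, hfs, -, hfli⟩ := Submodule.exists_fun_fin_finrank_span_eq ℝ (e '' (B : Set ℝ))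
  have hrank : finrank ℝ (Submodule.span ℝ (e '' (B : Set ℝ))) = n := by
    rw [hspan, finrank_top, finrank_fin_fun]
  have hch : ∀ j : Fin n, ∃ x ∈ B, e x = f (Fin.cast hrank.symm j) := by
    intro j
    obtain ⟨x, hx, hxe⟩ := hfs (Fin.cast hrank.symm j)
    exact ⟨x, hx, hxe⟩
  choose y hyB hye using hch
  refine ⟨y, hyB, ?_⟩
  have hli2 : LinearIndependent ℝ (fun j : Fin n => e (y j)) := by
    have h1 := hfli.comp (Fin.cast hrank.symm) (Fin.cast_injective _)
    have h2 : (fun j : Fin n => e (y j)) = f ∘ Fin.cast hrank.symm := by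
      funext j; exact hye j
    rw [h2]; exact h1
  have hunit : IsUnit (Matrix.of fun j i => (pb i).eval (y j) : Matrix (Fin n) (Fin n) ℝ) :=
    Matrix.linearIndependent_rows_iff_isUnit.1 hli2
  exact ((Matrix.isUnit_iff_isUnit_det _).1 hunit).ne_zero

/-- **Fekete points.** -/
theorem fekete (k : ℕ) (W : Submodule ℝ ℝ[X]) [FiniteDimensional ℝ W]
    (hW : ∀ w ∈ W, w.natDegree ≤ k) (X : Finset ℝ) (hX : k < X.card) :
    ∃ (T : Fin (finrank ℝ W) → ℝ) (L : Fin (finrank ℝ W) → ℝ[X]),
      (∀ j, T j ∈ X) ∧ (∀ l, (L l).natDegree ≤ k) ∧ (∀ l, ∀ x ∈ X, |(L l).eval x| ≤ 1) ∧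
      (∀ B : Finset ℝ, k < B.card → ∃ y : Fin (finrank ℝ W) → ℝ, (∀ j, y j ∈ B) ∧
        Matrix.det (Matrix.of fun i j => (L i).eval (y j)) ≠ 0) ∧
      (∀ g : Fin (finrank ℝ W) → ℝ[X], (∀ i, g i ∈ W) → ∀ y : Fin (finrank ℝ W) → ℝ,
        Matrix.det (Matrix.of fun i j => (g i).eval (y j)) =
          Matrix.det (Matrix.of fun i j => (g i).eval (T j)) *
            Matrix.det (Matrix.of fun i j => (L i).eval (y j))) ∧
      (∀ w ∈ W, (∀ j, w.eval (T j) = 0) → w = 0) := by
  classical
  set n := finrank ℝ W with hn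
  set b : Basis (Fin n) ℝ W := Module.finBasis ℝ W with hb
  set pb : Fin n → ℝ[X] := fun i => (b i : ℝ[X]) with hpb
  have hpbW : ∀ i, pb i ∈ W := fun i => (b i).2
  have hdeg : ∀ c : Fin n → ℝ, (∑ i, c i • pb i).natDegree ≤ k := fun c =>
    hW _ (Submodule.sum_mem _ fun i _ => W.smul_mem _ (hpbW i))
  have hli : LinearIndependent ℝ pb := by
    have := b.linearIndependent.map' W.subtype (Submodule.ker_subtype W)
    exact this
  have hrepr : ∀ w (hw : w ∈ W), w = ∑ m, b.repr ⟨w, hw⟩ m • pb m := by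
    intro w hw
    have h1 := congrArg (Submodule.subtype W) (b.sum_repr ⟨w, hw⟩)
    rw [map_sum] at h1
    simp only [map_smul, Submodule.subtype_apply] at h1
    exact h1.symm
  obtain ⟨T, hTX, hTmax⟩ := Finset.exists_max_image (Fintype.piFinset fun _ : Fin n => X)
    (fun y => |Matrix.det (Matrix.of fun j i => (pb i).eval (y j) : Matrix (Fin n) (Fin n) ℝ)|)
    (by
      obtain ⟨y, hy, -⟩ := Fekete_exists k pb hdeg hli X hX
      exact ⟨y, Fintype.mem_piFinset.2 hy⟩)
  rw [Fintype.mem_piFinset] at hTX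
  set E : Matrix (Fin n) (Fin n) ℝ := Matrix.of fun j i => (pb i).eval (T j) with hE
  have hEdet : E.det ≠ 0 := by
    obtain ⟨y, hy, hyd⟩ := Fekete_exists k pb hdeg hli X hX
    intro h0
    have h1 := hTmax y (Fintype.mem_piFinset.2 hy)
    rw [h0, abs_zero] at h1
    exact hyd (abs_nonpos_iff.1 h1)
  have hEunit : IsUnit E.det := isUnit_iff_ne_zero.2 hEdet
  set L : Fin n → ℝ[X] := fun l => ∑ i, E⁻¹ i l • pb i with hL
  have hLeval : ∀ l x, (L l).eval x = Matrix.vecMul (fun i => (pb i).eval x) E⁻¹ l := by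
    intro l x
    simp only [hL, eval_finsetSum, eval_smul, smul_eq_mul, Matrix.vecMul, dotProduct]
    exact Finset.sum_congr rfl fun i _ => mul_comm _ _
  have hexp : ∀ x, Matrix.vecMul (fun l => (L l).eval x) E = fun i => (pb i).eval x := by
    intro x
    have h1 : (fun l => (L l).eval x) = Matrix.vecMul (fun i => (pb i).eval x) E⁻¹ := by
      funext l; exact hLeval l x
    rw [h1, Matrix.vecMul_vecMul, Matrix.nonsing_inv_mul _ hEunit, Matrix.vecMul_one]
  have hdetY : ∀ y : Fin n → ℝ, Matrix.det (Matrix.of fun j i => (pb i).eval (y j)) =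
      Matrix.det (Matrix.of fun i j => (L i).eval (y j)) * E.det := by
    intro y
    have h1 : (Matrix.of fun j i => (pb i).eval (y j) : Matrix (Fin n) (Fin n) ℝ) =
        (Matrix.of fun i j => (L i).eval (y j) : Matrix (Fin n) (Fin n) ℝ).transpose * E := by
      funext j i
      have h2 := congrFun (hexp (y j)) i
      rw [Matrix.vecMul, dotProduct] at h2
      rw [Matrix.mul_apply]
      simp only [Matrix.of_apply, Matrix.transpose_apply]
      exact h2.symm
    rw [h1, Matrix.det_mul, Matrix.det_transpose]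
  have hdetG : ∀ g : Fin n → ℝ[X], (∀ i, g i ∈ W) → ∃ γ : ℝ, ∀ y : Fin n → ℝ,
      Matrix.det (Matrix.of fun i j => (g i).eval (y j)) =
        γ * Matrix.det (Matrix.of fun j i => (pb i).eval (y j)) := by
    intro g hg
    refine ⟨Matrix.det (Matrix.of fun i m => b.repr ⟨g i, hg i⟩ m), fun y => ?_⟩
    have h1 : (Matrix.of fun i j => (g i).eval (y j) : Matrix (Fin n) (Fin n) ℝ) =
        (Matrix.of fun i m => b.repr ⟨g i, hg i⟩ m) *
          (Matrix.of fun j i => (pb i).eval (y j) : Matrix (Fin n) (Fin n) ℝ).transpose := by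
      funext i j
      rw [Matrix.mul_apply]
      simp only [Matrix.of_apply, Matrix.transpose_apply]
      conv_lhs => rw [hrepr (g i) (hg i)]
      rw [eval_finsetSum]
      simp only [eval_smul, smul_eq_mul]
    rw [h1, Matrix.det_mul, Matrix.det_transpose]
  refine ⟨T, L, hTX, fun l => hdeg _, ?_, ?_, ?_, ?_⟩
  · intro l x hx
    have h1 : (E.updateRow l (fun i => (pb i).eval x)).det = (L l).eval x * E.det := by
      have h2 : (fun i => (pb i).eval x) = ∑ m, ((L m).eval x) • E m := by
        rw [← hexp x]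
        funext i
        rw [Matrix.vecMul, dotProduct, Finset.sum_apply]
        rfl
      rw [h2, Matrix.det_updateRow_sum, smul_eq_mul]
    have h3 : E.updateRow l (fun i => (pb i).eval x) =
        Matrix.of fun j i => (pb i).eval (Function.update T l x j) := by
      funext j i
      by_cases hj : j = l
      · subst hj; simp [Matrix.updateRow_self]
      · rw [Matrix.updateRow_ne hj]
        simp [hE, Function.update_of_ne hj]
    have h4 := hTmax (Function.update T l x) (by
      rw [Fintype.mem_piFinset]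
      intro j
      by_cases hj : j = l
      · subst hj; simpa using hx
      · rw [Function.update_of_ne hj]; exact hTX j)
    rw [← h3, h1, abs_mul] at h4
    have h5 : 0 < |E.det| := abs_pos.2 hEdet
    by_contra hcon
    push Not at hcon
    have : 1 * |E.det| < |(L l).eval x| * |E.det| := mul_lt_mul_of_pos_right hcon h5
    linarith
  · intro B hB
    obtain ⟨y, hy, hyd⟩ := Fekete_exists k pb hdeg hli B hB
    refine ⟨y, hy, ?_⟩
    rw [hdetY] at hyd
    exact left_ne_zero_of_mul hyd
  · intro g hg y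
    obtain ⟨γ, hγ⟩ := hdetG g hg
    rw [hγ y, hγ T, hdetY y]
    ring
  · intro w hw hw0
    have h1 : E.mulVec (fun m => b.repr ⟨w, hw⟩ m) = 0 := by
      funext j
      rw [Matrix.mulVec, dotProduct]
      have h2 := hw0 j
      rw [hrepr w hw, eval_finsetSum] at h2
      simp only [eval_smul, smul_eq_mul] at h2
      simp only [hE, Matrix.of_apply, Pi.zero_apply]
      rw [← h2]
      exact Finset.sum_congr rfl fun m _ => mul_comm _ _
    have h3 := Matrix.eq_zero_of_mulVec_eq_zero hEdet h1
    rw [hrepr w hw]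
    refine Finset.sum_eq_zero fun m _ => ?_
    have := congrFun h3 m
    simp only [Pi.zero_apply] at this
    rw [this, zero_smul]

end Pool.Agent.H65.CO
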