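import Mathlib

/-!
# From the number of curves to the number of incidences (real inequalities)
-/

namespace Pool.Agent.H65.CO

open Finset

private theorem Inc_cast (r : ℕ) : ((r * (r + 1) / 2 : ℕ) : ℝ) = (r : ℝ) * (r + 1) / 2 := by
  have h : 2 ∣ r * (r + 1) := (Nat.even_mul_succ_self r).two_dvd
  rw [Nat.cast_div h (by norm_num)]
  push_cast; ring

private theorem Inc_term (r : ℕ) (M Y : ℝ) (hM : 1 ≤ M) (hY : 1 ≤ Y) :
    M * (Y ^ (r + 1) / M ^ (r * (r + 1) / 2)) ^ (2 / (((r : ℝ) + 1) * (r + 2))) =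
      (M * Y) ^ (2 / ((r : ℝ) + 2)) := by
  have hM0 : 0 < M := by linarith
  have hY0 : 0 < Y := by linarith
  have hr1 : (0 : ℝ) < (r : ℝ) + 1 := by positivity
  have hr2 : (0 : ℝ) < (r : ℝ) + 2 := by positivity
  rw [Real.div_rpow (by positivity) (by positivity), ← Real.rpow_natCast Y (r + 1),
    ← Real.rpow_mul hY0.le, ← Real.rpow_natCast M (r * (r + 1) / 2), ← Real.rpow_mul hM0.le,
    Inc_cast, Real.mul_rpow hM0.le hY0.le]
  have e1 : (((r + 1 : ℕ) : ℝ)) * (2 / (((r : ℝ) + 1) * (r + 2))) = 2 / ((r : ℝ) + 2) := by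
    push_cast; field_simp
  have e2 : ((r : ℝ) * (r + 1) / 2) * (2 / (((r : ℝ) + 1) * (r + 2))) =
      1 - 2 / ((r : ℝ) + 2) := by
    field_simp; ring
  rw [e1, e2]
  have e3 : M = M ^ (2 / ((r : ℝ) + 2)) * M ^ (1 - 2 / ((r : ℝ) + 2)) := by
    rw [← Real.rpow_add hM0]
    have : 2 / ((r : ℝ) + 2) + (1 - 2 / ((r : ℝ) + 2)) = 1 := by ring
    rw [this, Real.rpow_one]
  have hpos : 0 < M ^ (1 - 2 / ((r : ℝ) + 2)) := Real.rpow_pos_of_pos hM0 _
  calc M * (Y ^ (2 / ((r : ℝ) + 2)) / M ^ (1 - 2 / ((r : ℝ) + 2)))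
      = (M ^ (2 / ((r : ℝ) + 2)) * M ^ (1 - 2 / ((r : ℝ) + 2))) *
        (Y ^ (2 / ((r : ℝ) + 2)) / M ^ (1 - 2 / ((r : ℝ) + 2))) := by rw [← e3]
    _ = M ^ (2 / ((r : ℝ) + 2)) * Y ^ (2 / ((r : ℝ) + 2)) := by
        field_simp

/-- From the number `N` of curves to the number `M N` of incidences. -/
theorem inc_all (k : ℕ) (C₀ M Y N : ℝ) (hM : 1 ≤ M) (hY : 1 ≤ Y)
    (hN : N = 0 ∨ 1 ≤ N)
    (h : N ≤ C₀ * ∑ r ∈ range (k + 1), Y ^ (r + 1) / M ^ (r * (r + 1) / 2)) :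
    M * N ≤ (|C₀| * (k + 1) + 1) * ∑ r ∈ range (k + 1),
      (M * Y) ^ (2 / ((r : ℝ) + 2)) * N ^ (1 - 2 / (((r : ℝ) + 1) * (r + 2))) := by
  have hM0 : 0 < M := by linarith
  have hY0 : 0 < Y := by linarith
  have hCnn : 0 ≤ |C₀| * (k + 1) := by positivity
  rcases hN with rfl | hN
  · rw [mul_zero]
    refine mul_nonneg (by linarith) (sum_nonneg fun r _ => ?_)
    exact mul_nonneg (Real.rpow_nonneg (by positivity) _) (Real.rpow_nonneg le_rfl _)
  have hN0 : 0 < N := by linarith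
  obtain ⟨r, hr, hmax⟩ := exists_max_image (range (k + 1))
    (fun r => Y ^ (r + 1) / M ^ (r * (r + 1) / 2)) ⟨0, mem_range.2 (by omega)⟩
  set Tr := Y ^ (r + 1) / M ^ (r * (r + 1) / 2) with hTr
  have hTr0 : 0 < Tr := by positivity
  have hsum : ∑ r ∈ range (k + 1), Y ^ (r + 1) / M ^ (r * (r + 1) / 2) ≤ ((k : ℝ) + 1) * Tr := by
    calc ∑ r ∈ range (k + 1), Y ^ (r + 1) / M ^ (r * (r + 1) / 2)
        ≤ ∑ _r ∈ range (k + 1), Tr := sum_le_sum hmax
      _ = ((k : ℝ) + 1) * Tr := by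
          rw [sum_const, card_range, nsmul_eq_mul]; push_cast; ring
  have hsum0 : 0 ≤ ∑ r ∈ range (k + 1), Y ^ (r + 1) / M ^ (r * (r + 1) / 2) :=
    sum_nonneg fun r _ => by positivity
  set C' := |C₀| * (k + 1) + 1 with hC'
  have hC1 : 1 ≤ C' := by linarith
  have hNT : N ≤ C' * Tr := by
    calc N ≤ C₀ * ∑ r ∈ range (k + 1), Y ^ (r + 1) / M ^ (r * (r + 1) / 2) := h
      _ ≤ |C₀| * ∑ r ∈ range (k + 1), Y ^ (r + 1) / M ^ (r * (r + 1) / 2) :=
          mul_le_mul_of_nonneg_right (le_abs_self _) hsum0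
      _ ≤ |C₀| * (((k : ℝ) + 1) * Tr) := mul_le_mul_of_nonneg_left hsum (abs_nonneg _)
      _ = |C₀| * (k + 1) * Tr := by ring
      _ ≤ C' * Tr := mul_le_mul_of_nonneg_right (by linarith) hTr0.le
  set θ : ℝ := 2 / (((r : ℝ) + 1) * (r + 2)) with hθ
  have hr1 : (0 : ℝ) < ((r : ℝ) + 1) * (r + 2) := by positivity
  have hθ0 : 0 ≤ θ := by positivity
  have hθ1 : θ ≤ 1 := by
    rw [hθ, div_le_one hr1]
    have : (0 : ℝ) ≤ r := by positivity
    nlinarith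
  have h1 : N ^ θ ≤ C' * Tr ^ θ := by
    calc N ^ θ ≤ (C' * Tr) ^ θ := Real.rpow_le_rpow hN0.le hNT hθ0
      _ = C' ^ θ * Tr ^ θ := Real.mul_rpow (by linarith) hTr0.le
      _ ≤ C' * Tr ^ θ := by
          refine mul_le_mul_of_nonneg_right ?_ (Real.rpow_nonneg hTr0.le _)
          calc C' ^ θ ≤ C' ^ (1 : ℝ) := Real.rpow_le_rpow_of_exponent_le hC1 hθ1
            _ = C' := Real.rpow_one _
  have h2 : N = N ^ θ * N ^ (1 - θ) := by
    rw [← Real.rpow_add hN0]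
    have : θ + (1 - θ) = 1 := by ring
    rw [this, Real.rpow_one]
  have h3 : M * N ≤ C' * ((M * Y) ^ (2 / ((r : ℝ) + 2)) * N ^ (1 - θ)) := by
    calc M * N = M * N ^ θ * N ^ (1 - θ) := by rw [mul_assoc, ← h2]
      _ ≤ M * (C' * Tr ^ θ) * N ^ (1 - θ) := by
          refine mul_le_mul_of_nonneg_right ?_ (Real.rpow_nonneg hN0.le _)
          exact mul_le_mul_of_nonneg_left h1 hM0.le
      _ = C' * ((M * Tr ^ θ) * N ^ (1 - θ)) := by ring
      _ = C' * ((M * Y) ^ (2 / ((r : ℝ) + 2)) * N ^ (1 - θ)) := by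
          rw [hTr, hθ, Inc_term r M Y hM hY]
  refine le_trans h3 (mul_le_mul_of_nonneg_left ?_ (by linarith))
  exact single_le_sum (f := fun r : ℕ => (M * Y) ^ (2 / ((r : ℝ) + 2)) *
    N ^ (1 - 2 / (((r : ℝ) + 1) * (r + 2))))
    (fun r _ => mul_nonneg (Real.rpow_nonneg (by positivity) _) (Real.rpow_nonneg hN0.le _)) hr

/-- For `1 ≤ N ≤ m` all terms are at most `m^(2/3) N^(2/3) + m`. -/
theorem inc_small (k : ℕ) (m N : ℝ) (hN : 1 ≤ N) (hNm : N ≤ m) :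
    ∑ r ∈ range (k + 1), m ^ (2 / ((r : ℝ) + 2)) * N ^ (1 - 2 / (((r : ℝ) + 1) * (r + 2))) ≤
      ((k : ℝ) + 1) * (m ^ (2 / 3 : ℝ) * N ^ (2 / 3 : ℝ) + m) := by
  have hN0 : 0 < N := by linarith
  have hm1 : 1 ≤ m := le_trans hN hNm
  have hm0 : 0 < m := by linarith
  have hmain : 0 ≤ m ^ (2 / 3 : ℝ) * N ^ (2 / 3 : ℝ) :=
    mul_nonneg (Real.rpow_nonneg hm0.le _) (Real.rpow_nonneg hN0.le _)
  calc ∑ r ∈ range (k + 1), m ^ (2 / ((r : ℝ) + 2)) *
        N ^ (1 - 2 / (((r : ℝ) + 1) * (r + 2)))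
      ≤ ∑ _r ∈ range (k + 1), (m ^ (2 / 3 : ℝ) * N ^ (2 / 3 : ℝ) + m) := by
        refine sum_le_sum fun r _ => ?_
        rcases Nat.eq_zero_or_pos r with rfl | hr
        · have e1 : (2 / (((0 : ℕ) : ℝ) + 2)) = 1 := by norm_num
          have e2 : (1 - 2 / ((((0 : ℕ) : ℝ) + 1) * (((0 : ℕ) : ℝ) + 2))) = 0 := by norm_num
          rw [e1, e2, Real.rpow_one, Real.rpow_zero, mul_one]
          linarith
        have hr1 : (1 : ℝ) ≤ r := by exact_mod_cast hr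
        have hr12 : (0 : ℝ) < ((r : ℝ) + 1) * (r + 2) := by positivity
        -- exponents
        set a : ℝ := 1 / 3 - 2 / (((r : ℝ) + 1) * (r + 2)) with ha
        set b : ℝ := 2 / 3 - 2 / ((r : ℝ) + 2) with hb
        have ha0 : 0 ≤ a := by
          rw [ha, sub_nonneg, div_le_div_iff₀ hr12 (by norm_num)]
          nlinarith
        have hab : a ≤ b := by
          have h1 : b - a = ((r : ℝ) - 1) * (r - 2) / (3 * (((r : ℝ) + 1) * (r + 2))) := by
            rw [ha, hb]; field_simp; ring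
          have h2 : 0 ≤ ((r : ℝ) - 1) * (r - 2) := by
            rcases Nat.lt_or_ge r 2 with h | h
            · have : r = 1 := by omega
              subst this; norm_num
            · have : (2 : ℝ) ≤ r := by exact_mod_cast h
              exact mul_nonneg (by linarith) (by linarith)
          have h3 : 0 ≤ b - a := by rw [h1]; positivity
          linarith
        have h4 : N ^ a ≤ m ^ b := by
          calc N ^ a ≤ m ^ a := Real.rpow_le_rpow hN0.le hNm ha0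
            _ ≤ m ^ b := Real.rpow_le_rpow_of_exponent_le hm1 hab
        have h5 : N ^ (1 - 2 / (((r : ℝ) + 1) * (r + 2))) = N ^ (2 / 3 : ℝ) * N ^ a := by
          rw [← Real.rpow_add hN0]
          congr 1
          rw [ha]; ring
        have h6 : m ^ (2 / 3 : ℝ) = m ^ (2 / ((r : ℝ) + 2)) * m ^ b := by
          rw [← Real.rpow_add hm0]
          congr 1
          rw [hb]; ring
        calc m ^ (2 / ((r : ℝ) + 2)) * N ^ (1 - 2 / (((r : ℝ) + 1) * (r + 2)))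
            = m ^ (2 / ((r : ℝ) + 2)) * N ^ (2 / 3 : ℝ) * N ^ a := by rw [h5]; ring
          _ ≤ m ^ (2 / ((r : ℝ) + 2)) * N ^ (2 / 3 : ℝ) * m ^ b := by
              refine mul_le_mul_of_nonneg_left h4 ?_
              exact mul_nonneg (Real.rpow_nonneg hm0.le _) (Real.rpow_nonneg hN0.le _)
          _ = m ^ (2 / 3 : ℝ) * N ^ (2 / 3 : ℝ) := by rw [h6]; ring
          _ ≤ m ^ (2 / 3 : ℝ) * N ^ (2 / 3 : ℝ) + m := by linarith
    _ = ((k : ℝ) + 1) * (m ^ (2 / 3 : ℝ) * N ^ (2 / 3 : ℝ) + m) := by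
        rw [sum_const, card_range, nsmul_eq_mul]; push_cast; ring

end Pool.Agent.H65.CO
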