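import Pool.Agent.H65.CO.Short
import Pool.Agent.H65.CO.Fekete

/-!
# A lower bound for determinants of integer valued polynomials at Fekete points
-/

namespace Pool.Agent.H65.CO

open Polynomial Module

private theorem Interval_long (k n : ℕ) (hn : n ≤ k + 1) (L : Fin n → ℝ[X])
    (hL : ∀ l, (L l).natDegree ≤ k) (X : Finset ℝ) (hLX : ∀ l, ∀ x ∈ X, |(L l).eval x| ≤ 1) :
    ∃ Y ⊆ X, X.card ≤ (2 * k * (k + 1) + 1) * Y.card ∧
      ∀ a ∈ Y, ∀ b ∈ Y, ∀ t ∈ Set.Icc a b, ∀ l, |(L l).eval t| ≤ 1 := by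
  classical
  set Z : Finset ℝ := (Finset.univ : Finset (Fin n)).biUnion
    (fun l => ((1 - L l ^ 2 : ℝ[X]).roots.toFinset)) with hZ
  have hZcard : Z.card ≤ 2 * k * (k + 1) := by
    calc Z.card ≤ ∑ l : Fin n, ((1 - L l ^ 2 : ℝ[X]).roots.toFinset).card :=
          Finset.card_biUnion_le
      _ ≤ ∑ _l : Fin n, 2 * k := by
          refine Finset.sum_le_sum fun l _ => ?_
          refine le_trans (Multiset.toFinset_card_le _) (le_trans (card_roots' _) ?_)
          refine le_trans (natDegree_sub_le _ _) ?_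
          rw [natDegree_one]
          refine max_le (Nat.zero_le _) ?_
          refine le_trans natDegree_pow_le ?_
          exact Nat.mul_le_mul_left 2 (hL l)
      _ = n * (2 * k) := by rw [Finset.sum_const, Finset.card_univ, Fintype.card_fin, smul_eq_mul]
      _ ≤ (k + 1) * (2 * k) := Nat.mul_le_mul_right _ hn
      _ = 2 * k * (k + 1) := by ring
  set c : ℝ → ℕ := fun x => (Z.filter (fun z => z < x)).card with hc
  have hcmaps : ∀ x ∈ X, c x ∈ Finset.range (Z.card + 1) := by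
    intro x _
    rw [Finset.mem_range]
    exact Nat.lt_succ_of_le (Finset.card_filter_le _ _)
  obtain ⟨m, -, hmax⟩ := Finset.exists_max_image (Finset.range (Z.card + 1))
    (fun m => (X.filter (fun x => c x = m)).card) ⟨0, Finset.mem_range.2 (Nat.succ_pos _)⟩
  refine ⟨X.filter (fun x => c x = m), Finset.filter_subset _ _, ?_, ?_⟩
  · have h1 := Finset.card_le_mul_card_image_of_maps_to hcmaps
      ((X.filter (fun x => c x = m)).card) (fun b hb => hmax b hb)
    rw [Finset.card_range] at h1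
    calc X.card ≤ (X.filter (fun x => c x = m)).card * (Z.card + 1) := h1
      _ ≤ (X.filter (fun x => c x = m)).card * (2 * k * (k + 1) + 1) :=
          Nat.mul_le_mul_left _ (Nat.succ_le_succ hZcard)
      _ = _ := mul_comm _ _
  intro a ha b hb t ht l
  rw [Finset.mem_filter] at ha hb
  by_contra hcon
  push Not at hcon
  have hcont : Continuous (fun x => |(L l).eval x|) := (L l).continuous.abs
  have hab1 : |(L l).eval a| ≤ 1 := hLX l a ha.1
  have hta : a < t := lt_of_le_of_ne ht.1 (by rintro rfl; linarith)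
  have htb : t < b := lt_of_le_of_ne ht.2 (by
    rintro rfl
    linarith [hLX l t hb.1])
  obtain ⟨z, hz, hz1⟩ := intermediate_value_Icc hta.le hcont.continuousOn ⟨hab1, hcon.le⟩
  simp only at hz1
  have hzt : z < t := lt_of_le_of_ne hz.2 (by rintro rfl; linarith)
  have hpne : (1 - L l ^ 2 : ℝ[X]) ≠ 0 := by
    intro h0
    have h1 : (1 - L l ^ 2 : ℝ[X]).eval t = 0 := by rw [h0, eval_zero]
    rw [eval_sub, eval_one, eval_pow, ← sq_abs] at h1
    nlinarith
  have hzZ : z ∈ Z := by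
    rw [hZ, Finset.mem_biUnion]
    refine ⟨l, Finset.mem_univ _, ?_⟩
    rw [Multiset.mem_toFinset, mem_roots hpne, IsRoot.def, eval_sub, eval_one, eval_pow,
      ← sq_abs, hz1]
    ring
  have hlt : c a < c b := by
    refine Finset.card_lt_card ?_
    rw [Finset.ssubset_iff_of_subset]
    · refine ⟨z, Finset.mem_filter.2 ⟨hzZ, lt_trans hzt htb⟩, ?_⟩
      rw [Finset.mem_filter]
      rintro ⟨-, h⟩
      exact absurd hz.1 (not_le.2 h)
    · intro w hw
      rw [Finset.mem_filter] at hw ⊢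
      exact ⟨hw.1, lt_trans hw.2 (lt_trans hta htb)⟩
  rw [ha.2, hb.2] at hlt
  exact lt_irrefl _ hlt

private theorem Interval_block (Y : Finset ℝ) (k N : ℕ) (hN : 1 ≤ N)
    (hY : (N + 1) * k < Y.card) (a b : ℝ) (hab : a < b) (hYab : ∀ x ∈ Y, x ∈ Set.Icc a b) :
    ∃ B ⊆ Y, k < B.card ∧ ∀ x ∈ B, ∀ y ∈ B, |x - y| ≤ (b - a) / N := by
  classical
  have hba : 0 < b - a := sub_pos.2 hab
  have hNpos : (0 : ℝ) < N := by exact_mod_cast hN
  set i : ℝ → ℕ := fun x => ⌊(N : ℝ) * (x - a) / (b - a)⌋₊ with hi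
  have hmaps : ∀ x ∈ Y, i x ∈ Finset.range (N + 1) := by
    intro x hx
    rw [Finset.mem_range]
    refine Nat.lt_succ_of_le ?_
    have h1 : (N : ℝ) * (x - a) / (b - a) ≤ N := by
      rw [div_le_iff₀ hba]
      have := (hYab x hx).2
      exact mul_le_mul_of_nonneg_left (by linarith) hNpos.le
    calc i x ≤ ⌊(N : ℝ)⌋₊ := Nat.floor_le_floor h1
      _ = N := Nat.floor_natCast N
  obtain ⟨m, -, hm⟩ := Finset.exists_lt_card_fiber_of_mul_lt_card_of_maps_to hmaps
    (n := k) (by rw [Finset.card_range]; exact hY)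
  refine ⟨Y.filter (fun x => i x = m), Finset.filter_subset _ _, hm, ?_⟩
  intro x hx y hy
  rw [Finset.mem_filter] at hx hy
  have h1 : 0 ≤ (N : ℝ) * (x - a) / (b - a) :=
    div_nonneg (mul_nonneg hNpos.le (sub_nonneg.2 (hYab x hx.1).1)) hba.le
  have h2 : 0 ≤ (N : ℝ) * (y - a) / (b - a) :=
    div_nonneg (mul_nonneg hNpos.le (sub_nonneg.2 (hYab y hy.1).1)) hba.le
  have e1 := Nat.floor_le h1
  have e2 := Nat.lt_floor_add_one ((N : ℝ) * (x - a) / (b - a))
  have e3 := Nat.floor_le h2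
  have e4 := Nat.lt_floor_add_one ((N : ℝ) * (y - a) / (b - a))
  have hx2 : ⌊(N : ℝ) * (x - a) / (b - a)⌋₊ = m := hx.2
  have hy2 : ⌊(N : ℝ) * (y - a) / (b - a)⌋₊ = m := hy.2
  rw [hx2] at e1 e2
  rw [hy2] at e3 e4
  have h3 : |(N : ℝ) * (x - a) / (b - a) - (N : ℝ) * (y - a) / (b - a)| ≤ 1 := by
    rw [abs_le]; constructor <;> linarith
  have h4 : (N : ℝ) * (x - a) / (b - a) - (N : ℝ) * (y - a) / (b - a) =
      (x - y) * (N / (b - a)) := by ring
  rw [h4, abs_mul, abs_of_pos (div_pos hNpos hba)] at h3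
  rw [le_div_iff₀ hNpos]
  have h5 : |x - y| * (N / (b - a)) = |x - y| * N / (b - a) := by ring
  rw [h5, div_le_one hba] at h3
  exact h3

private theorem Interval_int {n : ℕ} (A : Matrix (Fin n) (Fin n) ℝ)
    (h : ∀ i j, ∃ m : ℤ, A i j = m) (h0 : A.det ≠ 0) : 1 ≤ |A.det| := by
  choose m hm using h
  have h1 : A = (Int.castRingHom ℝ).mapMatrix (Matrix.of m) := by
    ext i j
    simp [hm i j]
  have h2 : A.det = ((Matrix.of m).det : ℤ) := by
    rw [h1, ← RingHom.map_det]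
    simp
  rw [h2] at h0 ⊢
  have h3 : (Matrix.of m).det ≠ 0 := by
    intro h; apply h0; rw [h]; simp
  have h4 := Int.one_le_abs h3
  exact_mod_cast h4

/-- **Lower bound.** At suitable points of `X` every nonzero determinant of polynomials from
`W` with integer values on `X` is at least `c |X|^(n(n-1)/2)`. -/
theorem det_lower (k : ℕ) : ∃ c : ℝ, 0 < c ∧ ∀ (W : Submodule ℝ ℝ[X]) [FiniteDimensional ℝ W],
    (∀ w ∈ W, w.natDegree ≤ k) → ∀ X : Finset ℝ, k < X.card →
    ∃ T : Fin (finrank ℝ W) → ℝ, (∀ j, T j ∈ X) ∧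
      (∀ w ∈ W, (∀ j, w.eval (T j) = 0) → w = 0) ∧
      ∀ g : Fin (finrank ℝ W) → ℝ[X], (∀ i, g i ∈ W) →
        (∀ i, ∀ x ∈ X, ∃ m : ℤ, (g i).eval x = m) →
        Matrix.det (Matrix.of fun i j => (g i).eval (T j)) = 0 ∨
        c * (X.card : ℝ) ^ (finrank ℝ W * (finrank ℝ W - 1) / 2) ≤
          |Matrix.det (Matrix.of fun i j => (g i).eval (T j))| := by
  classical
  obtain ⟨K, hK1, hK⟩ := short_block k
  set R : ℕ := 2 * k * (k + 1) + 1 with hR
  set M0 : ℕ := 4 * R * (k + 1) with hM0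
  have hM0pos : (1 : ℝ) ≤ (M0 : ℝ) := by
    have : 1 ≤ M0 := by
      rw [hM0]
      exact Nat.succ_le_of_lt (by positivity)
    exact_mod_cast this
  have hKpos : 0 < K := by linarith
  refine ⟨1 / (K * (M0 : ℝ) ^ ((k + 1) * (k + 1))), by positivity, ?_⟩
  intro W _ hW X hX
  have hn : finrank ℝ W ≤ k + 1 := by
    have hle : W ≤ degreeLT ℝ (k + 1) := by
      intro w hw
      rw [mem_degreeLT]
      refine lt_of_le_of_lt degree_le_natDegree ?_
      exact_mod_cast Nat.lt_succ_of_le (hW w hw)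
    have : FiniteDimensional ℝ (degreeLT ℝ (k + 1)) :=
      (degreeLTEquiv ℝ (k + 1)).symm.finiteDimensional
    have h1 := Submodule.finrank_mono hle
    rw [(degreeLTEquiv ℝ (k + 1)).finrank_eq, finrank_fin_fun] at h1
    exact h1
  obtain ⟨T, L, hTX, hLdeg, hLX, hB, hdet, hinj⟩ := fekete k W hW X hX
  refine ⟨T, hTX, hinj, ?_⟩
  intro g hg hgX
  by_cases h0 : Matrix.det (Matrix.of fun i j => (g i).eval (T j)) = 0
  · exact Or.inl h0
  right
  set e := finrank ℝ W * (finrank ℝ W - 1) / 2 with he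
  have hele : e ≤ (k + 1) * (k + 1) := by
    rw [he]
    refine le_trans (Nat.div_le_self _ _) ?_
    exact Nat.mul_le_mul hn (le_trans (Nat.sub_le _ _) hn)
  have hM0e : (M0 : ℝ) ^ e ≤ (M0 : ℝ) ^ ((k + 1) * (k + 1)) := pow_le_pow_right₀ hM0pos hele
  rcases le_or_gt X.card M0 with hM | hM
  · have h1 : 1 ≤ |Matrix.det (Matrix.of fun i j => (g i).eval (T j))| := by
      refine Interval_int _ ?_ h0
      intro i j
      exact hgX i (T j) (hTX j)
    refine le_trans ?_ h1
    have h2 : (X.card : ℝ) ^ e ≤ (M0 : ℝ) ^ e :=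
      pow_le_pow_left₀ (by positivity) (by exact_mod_cast hM) _
    have h3 : (X.card : ℝ) ^ e ≤ K * (M0 : ℝ) ^ ((k + 1) * (k + 1)) := by
      calc (X.card : ℝ) ^ e ≤ (M0 : ℝ) ^ ((k + 1) * (k + 1)) := le_trans h2 hM0e
        _ = 1 * (M0 : ℝ) ^ ((k + 1) * (k + 1)) := by ring
        _ ≤ K * (M0 : ℝ) ^ ((k + 1) * (k + 1)) := by gcongr
    rw [one_div, inv_mul_le_iff₀ (by positivity), mul_one]
    exact h3
  · obtain ⟨Y, hYX, hYcard, hYL⟩ := Interval_long k _ hn L hLdeg X hLX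
    have hYbig : 4 * (k + 1) < Y.card := by
      by_contra hcon
      push Not at hcon
      have h1 : R * Y.card ≤ R * (4 * (k + 1)) := Nat.mul_le_mul_left _ hcon
      have h2 : R * (4 * (k + 1)) = M0 := by rw [hM0]; ring
      have h3 : X.card ≤ R * Y.card := hYcard
      omega
    set q := Y.card / (k + 1) with hq
    have hq4 : 4 ≤ q := by
      rw [hq, Nat.le_div_iff_mul_le (Nat.succ_pos k)]
      exact hYbig.le
    obtain ⟨N, hNq⟩ : ∃ N, q = N + 1 := ⟨q - 1, by omega⟩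
    have hN3 : 3 ≤ N := by omega
    have hNk : (N + 1) * k < Y.card := by
      rw [← hNq]
      have h1 : q * (k + 1) ≤ Y.card := Nat.div_mul_le_self _ _
      have h2 : q * (k + 1) = q * k + q := by ring
      omega
    have hMN : X.card ≤ M0 * N := by
      have h1 : Y.card < (k + 1) * (q + 1) := by
        rw [hq]
        exact Nat.lt_mul_div_succ _ (Nat.succ_pos k)
      have h2 : (k + 1) * (q + 1) ≤ (k + 1) * (4 * N) := Nat.mul_le_mul_left _ (by omega)
      have h3 : X.card ≤ R * Y.card := hYcard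
      calc X.card ≤ R * Y.card := h3
        _ ≤ R * ((k + 1) * (4 * N)) := Nat.mul_le_mul_left _ (le_trans h1.le h2)
        _ = M0 * N := by rw [hM0]; ring
    have hYne : Y.Nonempty := by
      rw [← Finset.card_pos]; omega
    set a := Y.min' hYne with ha
    set b := Y.max' hYne with hb
    have haY : a ∈ Y := Y.min'_mem hYne
    have hbY : b ∈ Y := Y.max'_mem hYne
    have hYab : ∀ x ∈ Y, x ∈ Set.Icc a b := fun x hx => ⟨Y.min'_le x hx, Y.le_max' x hx⟩
    have hab : a < b := by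
      refine Y.min'_lt_max'_of_card ?_
      omega
    obtain ⟨B, hBY, hBk, hBspan⟩ := Interval_block Y k N (by omega) hNk a b hab hYab
    obtain ⟨y, hyB, hydet⟩ := hB B hBk
    have h1 := hdet g hg y
    have h2 : Matrix.det (Matrix.of fun i j => (g i).eval (y j)) ≠ 0 := by
      rw [h1]; exact mul_ne_zero h0 hydet
    have h3 : 1 ≤ |Matrix.det (Matrix.of fun i j => (g i).eval (y j))| := by
      refine Interval_int _ ?_ h2
      intro i j
      exact hgX i (y j) (hYX (hBY (hyB j)))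
    rw [h1, abs_mul] at h3
    have h4 := hK _ hn L hLdeg a b hab (fun l t ht => hYL a haY b hbY t ht l) y N (by omega)
      (fun j => hYab _ (hBY (hyB j))) (fun i j => hBspan _ (hyB i) _ (hyB j))
    have hNe : (0 : ℝ) < (N : ℝ) ^ e := by
      have : (0 : ℝ) < N := by exact_mod_cast (by omega : 0 < N)
      positivity
    set dT := |Matrix.det (Matrix.of fun i j => (g i).eval (T j))| with hdT
    set dL := |Matrix.det (Matrix.of fun i j => (L i).eval (y j))| with hdL
    have hdTpos : 0 < dT := abs_pos.2 h0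
    have h5 : (N : ℝ) ^ e ≤ K * dT := by
      calc (N : ℝ) ^ e = 1 * (N : ℝ) ^ e := by ring
        _ ≤ (dT * dL) * (N : ℝ) ^ e := by gcongr
        _ = dT * (dL * (N : ℝ) ^ e) := by ring
        _ ≤ dT * K := by gcongr
        _ = K * dT := by ring
    have h6 : (X.card : ℝ) ^ e ≤ (M0 : ℝ) ^ ((k + 1) * (k + 1)) * (N : ℝ) ^ e := by
      calc (X.card : ℝ) ^ e ≤ ((M0 : ℝ) * N) ^ e :=
            pow_le_pow_left₀ (by positivity) (by exact_mod_cast hMN) _
        _ = (M0 : ℝ) ^ e * (N : ℝ) ^ e := mul_pow _ _ _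
        _ ≤ (M0 : ℝ) ^ ((k + 1) * (k + 1)) * (N : ℝ) ^ e := by gcongr
    rw [one_div, inv_mul_le_iff₀ (by positivity)]
    calc (X.card : ℝ) ^ e ≤ (M0 : ℝ) ^ ((k + 1) * (k + 1)) * (N : ℝ) ^ e := h6
      _ ≤ (M0 : ℝ) ^ ((k + 1) * (k + 1)) * (K * dT) := by gcongr
      _ = K * (M0 : ℝ) ^ ((k + 1) * (k + 1)) * dT := by ring

end Pool.Agent.H65.CO
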