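import Mathlib

/-!
# Many polynomials with values in short columns
-/

namespace Pool.Agent.H65.CO

open Polynomial

private noncomputable def Sharp_poly {r : ℕ} (a : Fin (r + 1) → ℕ) : ℝ[X] :=
  1 + ∑ j : Fin (r + 1), C ((a j : ℕ) : ℝ) * X ^ (j : ℕ)

private theorem Sharp_deg {r : ℕ} (a : Fin (r + 1) → ℕ) : (Sharp_poly a).natDegree ≤ r := by
  unfold Sharp_poly
  refine le_trans (natDegree_add_le _ _) (max_le ?_ ?_)
  · rw [natDegree_one]; exact Nat.zero_le _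
  · refine natDegree_sum_le_of_forall_le _ _ fun j _ => ?_
    refine le_trans (natDegree_C_mul_X_pow_le _ _) ?_
    exact Nat.lt_succ_iff.1 j.2

private theorem Sharp_inj {r : ℕ} : Function.Injective (Sharp_poly (r := r)) := by
  intro a a' h
  have h1 : (∑ j : Fin (r + 1), C ((a j : ℕ) : ℝ) * X ^ (j : ℕ)) =
      ∑ j : Fin (r + 1), C ((a' j : ℕ) : ℝ) * X ^ (j : ℕ) := add_left_cancel h
  funext i
  have h2 := congrArg (fun p => coeff p (i : ℕ)) h1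
  simp only [finsetSum_coeff, coeff_C_mul, coeff_X_pow] at h2
  have h3 : ∀ c : Fin (r + 1) → ℕ, (∑ j : Fin (r + 1), ((c j : ℕ) : ℝ) *
      (if (i : ℕ) = (j : ℕ) then (1 : ℝ) else 0)) = ((c i : ℕ) : ℝ) := by
    intro c
    rw [Finset.sum_eq_single i]
    · simp
    · intro j _ hj
      have : (i : ℕ) ≠ (j : ℕ) := fun h => hj (Fin.ext h.symm)
      simp [this]
    · intro h; exact absurd (Finset.mem_univ i) h
  rw [h3 a, h3 a'] at h2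
  exact_mod_cast h2

private theorem Sharp_eval {r : ℕ} (a : Fin (r + 1) → ℕ) (x : ℕ) :
    (Sharp_poly a).eval (x : ℝ) = ((1 + ∑ j : Fin (r + 1), a j * x ^ (j : ℕ) : ℕ) : ℝ) := by
  unfold Sharp_poly
  rw [eval_add, eval_one, eval_finsetSum]
  push_cast
  simp only [eval_mul, eval_C, eval_pow, eval_X]

private theorem Sharp_div (Y m : ℕ) (hY : 1 ≤ Y) (hm : 1 ≤ m) :
    (Y : ℝ) / m ≤ (((Y - 1) / m + 1 : ℕ) : ℝ) := by
  have hmpos : (0 : ℝ) < m := by exact_mod_cast hm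
  rw [div_le_iff₀ hmpos]
  have h1 : Y - 1 < m * ((Y - 1) / m + 1) := Nat.lt_mul_div_succ _ (by omega)
  have h2 : Y ≤ ((Y - 1) / m + 1) * m := by
    rw [mul_comm]; omega
  exact_mod_cast h2

private theorem Sharp_family (r M Y : ℕ) (hM : 1 ≤ M) (hY : 1 ≤ Y) :
    ∃ S : Finset ℝ[X], (∀ f ∈ S, f.natDegree ≤ r) ∧
      (∀ f ∈ S, ∀ x ∈ Finset.Icc 1 M, ∃ m : ℕ, 1 ≤ m ∧ m ≤ Y ∧ f.eval (x : ℝ) = m) ∧
      (Y : ℝ) ^ (r + 1) / (((r : ℝ) + 1) ^ (r + 1) * (M : ℝ) ^ (r * (r + 1) / 2)) ≤ S.card := by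
  classical
  have hMpos : (0 : ℝ) < M := by exact_mod_cast hM
  set B : Fin (r + 1) → ℕ := fun j => (Y - 1) / ((r + 1) * M ^ (j : ℕ)) with hB
  have hden : ∀ j : Fin (r + 1), 1 ≤ (r + 1) * M ^ (j : ℕ) := fun j =>
    Nat.succ_le_of_lt (Nat.mul_pos (Nat.succ_pos r) (pow_pos (by omega) _))
  refine ⟨(Fintype.piFinset fun j => Finset.range (B j + 1)).image Sharp_poly, ?_, ?_, ?_⟩
  · intro f hf
    rw [Finset.mem_image] at hf
    obtain ⟨a, -, rfl⟩ := hf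
    exact Sharp_deg a
  · intro f hf x hx
    rw [Finset.mem_image] at hf
    obtain ⟨a, ha, rfl⟩ := hf
    rw [Fintype.mem_piFinset] at ha
    rw [Finset.mem_Icc] at hx
    refine ⟨1 + ∑ j : Fin (r + 1), a j * x ^ (j : ℕ), by omega, ?_, Sharp_eval a x⟩
    have h1 : ∀ j : Fin (r + 1), (r + 1) * (a j * x ^ (j : ℕ)) ≤ Y - 1 := by
      intro j
      have h2 : a j ≤ B j := Nat.lt_succ_iff.1 (Finset.mem_range.1 (ha j))
      have h3 : x ^ (j : ℕ) ≤ M ^ (j : ℕ) := Nat.pow_le_pow_left hx.2 _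
      calc (r + 1) * (a j * x ^ (j : ℕ)) ≤ (r + 1) * (B j * M ^ (j : ℕ)) :=
            Nat.mul_le_mul_left _ (Nat.mul_le_mul h2 h3)
        _ = (Y - 1) / ((r + 1) * M ^ (j : ℕ)) * ((r + 1) * M ^ (j : ℕ)) := by
            simp only [hB]; ring
        _ ≤ Y - 1 := Nat.div_mul_le_self _ _
    have h2 : (r + 1) * ∑ j : Fin (r + 1), a j * x ^ (j : ℕ) ≤ (r + 1) * (Y - 1) := by
      rw [Finset.mul_sum]
      calc ∑ j : Fin (r + 1), (r + 1) * (a j * x ^ (j : ℕ)) ≤ ∑ _j : Fin (r + 1), (Y - 1) :=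
            Finset.sum_le_sum fun j _ => h1 j
        _ = (r + 1) * (Y - 1) := by
            rw [Finset.sum_const, Finset.card_univ, Fintype.card_fin, smul_eq_mul]
    have h3 := Nat.le_of_mul_le_mul_left h2 (Nat.succ_pos r)
    omega
  · rw [Finset.card_image_of_injective _ Sharp_inj, Fintype.card_piFinset]
    have h1 : ((∏ j : Fin (r + 1), (Finset.range (B j + 1)).card : ℕ) : ℝ) =
        ∏ j : Fin (r + 1), ((B j + 1 : ℕ) : ℝ) := by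
      rw [Nat.cast_prod]
      simp only [Finset.card_range]
    rw [h1]
    have h2 : ∏ j : Fin (r + 1), ((Y : ℝ) / (((r + 1) * M ^ (j : ℕ) : ℕ) : ℝ)) ≤
        ∏ j : Fin (r + 1), ((B j + 1 : ℕ) : ℝ) :=
      Finset.prod_le_prod (fun j _ => by positivity) fun j _ => Sharp_div Y _ hY (hden j)
    refine le_trans (le_of_eq ?_) h2
    rw [Finset.prod_div_distrib, Finset.prod_const, Finset.card_univ, Fintype.card_fin]
    congr 1
    have h3 : ∀ j : Fin (r + 1), (((r + 1) * M ^ (j : ℕ) : ℕ) : ℝ) =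
        ((r : ℝ) + 1) * (M : ℝ) ^ (j : ℕ) := fun j => by push_cast; ring
    rw [Finset.prod_congr rfl fun j _ => h3 j, Finset.prod_mul_distrib, Finset.prod_const,
      Finset.card_univ, Fintype.card_fin, Finset.prod_pow_eq_pow_sum]
    congr 2
    rw [Fin.sum_univ_eq_sum_range (fun j => j), Finset.sum_range_id, Nat.add_sub_cancel, mul_comm]

/-- **Lower bound.** -/
theorem count_lower (k : ℕ) : ∃ c : ℝ, 0 < c ∧ ∀ M : ℕ, 1 ≤ M → ∀ Y : ℕ, 1 ≤ Y →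
    ∃ S : Finset ℝ[X], (∀ f ∈ S, f.natDegree ≤ k) ∧
      (∀ f ∈ S, ∀ x ∈ Finset.Icc 1 M, ∃ m : ℕ, 1 ≤ m ∧ m ≤ Y ∧ f.eval (x : ℝ) = m) ∧
      c * ∑ r ∈ Finset.range (k + 1), (Y : ℝ) ^ (r + 1) / (M : ℝ) ^ (r * (r + 1) / 2) ≤
        S.card := by
  classical
  refine ⟨1 / (((k : ℝ) + 1) * ((k : ℝ) + 1) ^ (k + 1)), by positivity, ?_⟩
  intro M hM Y hY
  have hMpos : (0 : ℝ) < M := by exact_mod_cast hM
  have hYpos : (0 : ℝ) < Y := by exact_mod_cast hY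
  obtain ⟨r, hr, hmax⟩ := Finset.exists_max_image (Finset.range (k + 1))
    (fun r => (Y : ℝ) ^ (r + 1) / (M : ℝ) ^ (r * (r + 1) / 2)) ⟨0, Finset.mem_range.2 (by omega)⟩
  rw [Finset.mem_range] at hr
  obtain ⟨S, hdeg, hval, hcard⟩ := Sharp_family r M Y hM hY
  refine ⟨S, fun f hf => le_trans (hdeg f hf) (by omega), hval, le_trans ?_ hcard⟩
  have hsum : ∑ r ∈ Finset.range (k + 1), (Y : ℝ) ^ (r + 1) / (M : ℝ) ^ (r * (r + 1) / 2) ≤
      ((k : ℝ) + 1) * ((Y : ℝ) ^ (r + 1) / (M : ℝ) ^ (r * (r + 1) / 2)) := by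
    calc ∑ r ∈ Finset.range (k + 1), (Y : ℝ) ^ (r + 1) / (M : ℝ) ^ (r * (r + 1) / 2)
        ≤ ∑ _r ∈ Finset.range (k + 1), (Y : ℝ) ^ (r + 1) / (M : ℝ) ^ (r * (r + 1) / 2) :=
          Finset.sum_le_sum hmax
      _ = ((k : ℝ) + 1) * ((Y : ℝ) ^ (r + 1) / (M : ℝ) ^ (r * (r + 1) / 2)) := by
          rw [Finset.sum_const, Finset.card_range, nsmul_eq_mul]; push_cast; ring
  have hpow : ((r : ℝ) + 1) ^ (r + 1) ≤ ((k : ℝ) + 1) ^ (k + 1) := by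
    have h1 : (r : ℝ) + 1 ≤ (k : ℝ) + 1 := by
      have : (r : ℝ) ≤ k := by exact_mod_cast Nat.lt_succ_iff.1 hr
      linarith
    have h2 : (1 : ℝ) ≤ (k : ℝ) + 1 := by
      have : (0 : ℝ) ≤ k := by positivity
      linarith
    calc ((r : ℝ) + 1) ^ (r + 1) ≤ ((k : ℝ) + 1) ^ (r + 1) := by gcongr
      _ ≤ ((k : ℝ) + 1) ^ (k + 1) := pow_le_pow_right₀ h2 (by omega)
  calc 1 / (((k : ℝ) + 1) * ((k : ℝ) + 1) ^ (k + 1)) *
        ∑ r ∈ Finset.range (k + 1), (Y : ℝ) ^ (r + 1) / (M : ℝ) ^ (r * (r + 1) / 2)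
      ≤ 1 / (((k : ℝ) + 1) * ((k : ℝ) + 1) ^ (k + 1)) *
        (((k : ℝ) + 1) * ((Y : ℝ) ^ (r + 1) / (M : ℝ) ^ (r * (r + 1) / 2))) := by gcongr
    _ = (Y : ℝ) ^ (r + 1) / (((k : ℝ) + 1) ^ (k + 1) * (M : ℝ) ^ (r * (r + 1) / 2)) := by
        field_simp
    _ ≤ (Y : ℝ) ^ (r + 1) / (((r : ℝ) + 1) ^ (r + 1) * (M : ℝ) ^ (r * (r + 1) / 2)) := by
        gcongr

end Pool.Agent.H65.CO
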