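import Mathlib

/-!
# Determinants of bounded polynomials at points of a short interval
-/

namespace Pool.Agent.H65.CO

open Polynomial Finset

/-- The coefficients of a polynomial of degree at most `k` are controlled by its size on
`[0,1]`. -/
theorem coef_bound (k : ℕ) : ∃ K : ℝ, 1 ≤ K ∧ ∀ Q : ℝ[X], Q.natDegree ≤ k → ∀ B : ℝ, 0 ≤ B →
    (∀ t ∈ Set.Icc (0 : ℝ) 1, |Q.eval t| ≤ B) → ∀ j, |Q.coeff j| ≤ K * B := by
  classical
  set v : Fin (k + 1) → ℝ := fun i => (i : ℝ) / (k + 1) with hv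
  have hvinj : Function.Injective v := by
    intro i j hij
    have h1 : (0 : ℝ) < (k : ℝ) + 1 := by positivity
    simp only [hv] at hij
    rw [div_left_inj' h1.ne'] at hij
    exact Fin.ext (by exact_mod_cast hij)
  have hvmem : ∀ i, v i ∈ Set.Icc (0 : ℝ) 1 := by
    intro i
    have h1 : (0 : ℝ) < (k : ℝ) + 1 := by positivity
    refine ⟨by simp only [hv]; positivity, ?_⟩
    simp only [hv]
    rw [div_le_one h1]
    have := i.2
    have h2 : ((i : ℕ) : ℝ) < ((k + 1 : ℕ) : ℝ) := by exact_mod_cast this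
    push_cast at h2
    exact h2.le
  set V := Matrix.vandermonde v with hV
  have hdet : V.det ≠ 0 := Matrix.det_vandermonde_ne_zero_iff.2 hvinj
  refine ⟨1 + ∑ j, ∑ i, |V⁻¹ j i|, ?_, ?_⟩
  · have : 0 ≤ ∑ j, ∑ i, |V⁻¹ j i| := sum_nonneg fun j _ => sum_nonneg fun i _ => abs_nonneg _
    linarith
  intro Q hQ B hB hb j
  have hKnn : 0 ≤ ∑ j, ∑ i, |V⁻¹ j i| := sum_nonneg fun j _ => sum_nonneg fun i _ => abs_nonneg _
  rcases lt_or_ge k j with hj | hj
  · rw [Polynomial.coeff_eq_zero_of_natDegree_lt (lt_of_le_of_lt hQ hj), abs_zero]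
    positivity
  set c : Fin (k + 1) → ℝ := fun i => Q.coeff i with hc
  have hval : V.mulVec c = fun i => Q.eval (v i) := by
    funext i
    rw [Matrix.mulVec, dotProduct, Polynomial.eval_eq_sum_range' (Nat.lt_succ_of_le hQ),
      Finset.sum_range]
    refine sum_congr rfl fun l _ => ?_
    rw [hV, Matrix.vandermonde_apply, hc]
    ring
  have hinv : c = V⁻¹.mulVec (fun i => Q.eval (v i)) := by
    rw [← hval, Matrix.mulVec_mulVec, Matrix.nonsing_inv_mul _ (isUnit_iff_ne_zero.2 hdet),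
      Matrix.one_mulVec]
  have hcj := congrFun hinv ⟨j, Nat.lt_succ_of_le hj⟩
  have hcj' : Q.coeff j = V⁻¹.mulVec (fun i => Q.eval (v i)) ⟨j, Nat.lt_succ_of_le hj⟩ := hcj
  rw [hcj', Matrix.mulVec, dotProduct]
  calc |∑ i, V⁻¹ ⟨j, Nat.lt_succ_of_le hj⟩ i * Q.eval (v i)|
      ≤ ∑ i, |V⁻¹ ⟨j, Nat.lt_succ_of_le hj⟩ i * Q.eval (v i)| := abs_sum_le_sum_abs _ _
    _ ≤ ∑ i, |V⁻¹ ⟨j, Nat.lt_succ_of_le hj⟩ i| * B := by
        refine sum_le_sum fun i _ => ?_
        rw [abs_mul]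
        exact mul_le_mul_of_nonneg_left (hb _ (hvmem i)) (abs_nonneg _)
    _ = (∑ i, |V⁻¹ ⟨j, Nat.lt_succ_of_le hj⟩ i|) * B := by rw [sum_mul]
    _ ≤ (1 + ∑ j, ∑ i, |V⁻¹ j i|) * B := by
        refine mul_le_mul_of_nonneg_right ?_ hB
        have h0 : (∑ i, |V⁻¹ ⟨j, Nat.lt_succ_of_le hj⟩ i|) ≤ ∑ j, ∑ i, |V⁻¹ j i| :=
          single_le_sum (f := fun j => ∑ i, |V⁻¹ j i|)
          (fun j _ => sum_nonneg fun i _ => abs_nonneg _)
          (mem_univ (⟨j, Nat.lt_succ_of_le hj⟩ : Fin (k + 1)))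
        linarith

/-- The Taylor coefficients at any point of `[0,1]` are controlled by the size on `[0,1]`. -/
theorem taylor_bound (k : ℕ) : ∃ K : ℝ, 1 ≤ K ∧ ∀ Q : ℝ[X], Q.natDegree ≤ k →
    (∀ t ∈ Set.Icc (0 : ℝ) 1, |Q.eval t| ≤ 1) → ∀ u ∈ Set.Icc (0 : ℝ) 1,
    ∀ j, |(taylor u Q).coeff j| ≤ K := by
  obtain ⟨K, hK1, hK⟩ := coef_bound k
  have hK0 : 0 < K := by linarith
  have h2 : (1 : ℝ) ≤ ((k : ℝ) + 1) * 2 ^ k := by
    have : (1 : ℝ) ≤ (2 : ℝ) ^ k := one_le_pow₀ (by norm_num)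
    have h3 : (1 : ℝ) ≤ (k : ℝ) + 1 := by
      have : (0 : ℝ) ≤ k := by positivity
      linarith
    nlinarith
  refine ⟨K * (K * ((k + 1) * 2 ^ k)), ?_, ?_⟩
  · have h4 : 1 ≤ K * (((k : ℝ) + 1) * 2 ^ k) := by nlinarith
    nlinarith
  intro Q hQ hb u hu j
  have hc : ∀ j, |Q.coeff j| ≤ K := by
    intro j
    have := hK Q hQ 1 zero_le_one hb j
    linarith
  refine hK (taylor u Q) ?_ (K * ((k + 1) * 2 ^ k)) (by positivity) ?_ j
  · rw [natDegree_taylor]; exact hQ
  intro t ht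
  rw [taylor_eval, Polynomial.eval_eq_sum_range' (Nat.lt_succ_of_le hQ)]
  calc |∑ i ∈ range (k + 1), Q.coeff i * (t + u) ^ i|
      ≤ ∑ i ∈ range (k + 1), |Q.coeff i * (t + u) ^ i| := abs_sum_le_sum_abs _ _
    _ ≤ ∑ i ∈ range (k + 1), K * 2 ^ k := by
        refine sum_le_sum fun i hi => ?_
        rw [abs_mul, abs_pow]
        have h3 : |t + u| ≤ 2 := by
          rw [abs_of_nonneg (add_nonneg ht.1 hu.1)]
          linarith [ht.2, hu.2]
        have h5 : i ≤ k := Nat.lt_succ_iff.1 (mem_range.1 hi)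
        have h4 : |t + u| ^ i ≤ 2 ^ k := by
          calc |t + u| ^ i ≤ 2 ^ i := pow_le_pow_left₀ (abs_nonneg _) h3 i
            _ ≤ 2 ^ k := pow_le_pow_right₀ (by norm_num) h5
        exact mul_le_mul (hc i) h4 (by positivity) (by linarith)
    _ = K * ((k + 1) * 2 ^ k) := by
        rw [sum_const, card_range, nsmul_eq_mul]; push_cast; ring

private theorem Short_sum {n : ℕ} (f : Fin n → ℕ) (hf : Function.Injective f) :
    n * (n - 1) / 2 ≤ ∑ i, f i := by
  classical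
  set s : Finset ℤ := univ.image (fun i => (f i : ℤ)) with hs
  have hinj : Function.Injective (fun i => (f i : ℤ)) := fun i j hij =>
    hf (Nat.cast_injective (R := ℤ) hij)
  have h1 := Finset.sum_range_le_sum (s := s) (c := 0) (by
    intro x hx
    rw [hs, mem_image] at hx
    obtain ⟨i, -, rfl⟩ := hx
    positivity)
  have hcard : s.card = n := by
    rw [hs, card_image_of_injective _ hinj, card_univ, Fintype.card_fin]
  rw [hcard, hs, sum_image (fun i _ j _ hij => hinj hij)] at h1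
  rw [← Finset.sum_range_id]
  have h2 : ((∑ i ∈ range n, i : ℕ) : ℤ) ≤ ((∑ i, f i : ℕ) : ℤ) := by
    push_cast
    calc (∑ i ∈ range n, (i : ℤ)) = ∑ i ∈ range n, (0 + (i : ℤ)) := by simp
      _ ≤ _ := h1
  exact_mod_cast h2

private theorem Short_mono {n : ℕ} (r : Fin n → ℕ) (h : Fin n → ℝ) (η : ℝ)
    (hh : ∀ j, |h j| ≤ η) :
    |Matrix.det (Matrix.of fun i j => h j ^ r i)| ≤ (Nat.factorial n : ℝ) * η ^ (∑ i, r i) := by
  rw [Matrix.det_apply]
  calc |∑ σ : Equiv.Perm (Fin n), Equiv.Perm.sign σ • ∏ i, (Matrix.of fun i j => h j ^ r i) (σ i) i|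
      ≤ ∑ σ : Equiv.Perm (Fin n),
        |Equiv.Perm.sign σ • ∏ i, (Matrix.of fun i j => h j ^ r i) (σ i) i| :=
        abs_sum_le_sum_abs _ _
    _ ≤ ∑ _σ : Equiv.Perm (Fin n), η ^ (∑ i, r i) := by
        refine sum_le_sum fun σ _ => ?_
        have h1 : |Equiv.Perm.sign σ • ∏ i, (Matrix.of fun i j => h j ^ r i) (σ i) i| =
            ∏ i, |h i| ^ r (σ i) := by
          rcases Int.units_eq_one_or (Equiv.Perm.sign σ) with h0 | h0
          · rw [h0, one_smul, abs_prod]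
            simp [abs_pow]
          · rw [h0, Units.neg_smul, one_smul, abs_neg, abs_prod]
            simp [abs_pow]
        rw [h1]
        calc ∏ i, |h i| ^ r (σ i) ≤ ∏ i, η ^ r (σ i) := by
              refine prod_le_prod (fun i _ => by positivity) fun i _ => ?_
              exact pow_le_pow_left₀ (abs_nonneg _) (hh i) _
          _ = η ^ (∑ i, r (σ i)) := by rw [prod_pow_eq_pow_sum]
          _ = η ^ (∑ i, r i) := by rw [Equiv.sum_comp σ r]
    _ = (Nat.factorial n : ℝ) * η ^ (∑ i, r i) := by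
        rw [sum_const, card_univ, Fintype.card_perm, Fintype.card_fin, nsmul_eq_mul]

private theorem Short_det {n k : ℕ} (c : Fin n → Fin (k + 1) → ℝ) (h : Fin n → ℝ) (η K : ℝ)
    (hη0 : 0 ≤ η) (hη1 : η ≤ 1) (hK : 1 ≤ K) (hh : ∀ j, |h j| ≤ η)
    (hc : ∀ i m, |c i m| ≤ K) :
    |Matrix.det (Matrix.of fun i j => ∑ m, c i m * h j ^ (m : ℕ))| ≤
      ((k : ℝ) + 1) ^ n * ((Nat.factorial n : ℝ) * K ^ n) * η ^ (n * (n - 1) / 2) := by
  classical
  have hexp : Matrix.det (Matrix.of fun i j => ∑ m, c i m * h j ^ (m : ℕ)) =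
      ∑ r : Fin n → Fin (k + 1), (∏ i, c i (r i)) *
        Matrix.det (Matrix.of fun i j => h j ^ ((r i : ℕ))) := by
    have h1 : (Matrix.of fun i j => ∑ m, c i m * h j ^ (m : ℕ) : Matrix (Fin n) (Fin n) ℝ) =
        fun i => ∑ m, c i m • (fun j => h j ^ (m : ℕ) : Fin n → ℝ) := by
      funext i j
      simp [Finset.sum_apply]
    have h2 : Matrix.det (Matrix.of fun i j => ∑ m, c i m * h j ^ (m : ℕ)) =
        (Matrix.detRowAlternating (R := ℝ) (n := Fin n)).toMultilinearMap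
          (fun i => ∑ m, c i m • (fun j => h j ^ (m : ℕ) : Fin n → ℝ)) := by
      rw [h1]; rfl
    rw [h2, MultilinearMap.map_sum]
    refine sum_congr rfl fun r _ => ?_
    rw [MultilinearMap.map_smul_univ]
    rfl
  rw [hexp]
  calc |∑ r : Fin n → Fin (k + 1), (∏ i, c i (r i)) *
        Matrix.det (Matrix.of fun i j => h j ^ ((r i : ℕ)))|
      ≤ ∑ r : Fin n → Fin (k + 1), |(∏ i, c i (r i)) *
        Matrix.det (Matrix.of fun i j => h j ^ ((r i : ℕ)))| := abs_sum_le_sum_abs _ _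
    _ ≤ ∑ _r : Fin n → Fin (k + 1),
        K ^ n * ((Nat.factorial n : ℝ) * η ^ (n * (n - 1) / 2)) := by
        refine sum_le_sum fun r _ => ?_
        rw [abs_mul]
        have h1 : |∏ i, c i (r i)| ≤ K ^ n := by
          rw [abs_prod]
          calc ∏ i, |c i (r i)| ≤ ∏ _i : Fin n, K :=
                prod_le_prod (fun i _ => abs_nonneg _) fun i _ => hc i _
            _ = K ^ n := by rw [prod_const, card_univ, Fintype.card_fin]
        refine mul_le_mul h1 ?_ (abs_nonneg _) (by positivity)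
        by_cases hr : Function.Injective (fun i => (r i : ℕ))
        · refine le_trans (Short_mono (fun i => (r i : ℕ)) h η hh) ?_
          refine mul_le_mul_of_nonneg_left ?_ (by positivity)
          exact pow_le_pow_of_le_one hη0 hη1 (Short_sum _ hr)
        · have h0 : Matrix.det (Matrix.of fun i j => h j ^ ((r i : ℕ)) :
              Matrix (Fin n) (Fin n) ℝ) = 0 := by
            rw [Function.Injective] at hr
            push Not at hr
            obtain ⟨a, b, hab, hne⟩ := hr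
            refine Matrix.det_zero_of_row_eq hne ?_
            funext j
            simp only [Matrix.of_apply]
            rw [hab]
          rw [h0, abs_zero]
          positivity
    _ = ((k : ℝ) + 1) ^ n * ((Nat.factorial n : ℝ) * K ^ n) * η ^ (n * (n - 1) / 2) := by
        rw [sum_const, card_univ, nsmul_eq_mul, Fintype.card_fun, Fintype.card_fin,
          Fintype.card_fin]
        push_cast; ring

/-- **Short blocks.** Polynomials of degree at most `k` bounded by `1` on `[a,b]` have a small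
determinant at `n` points of `[a,b]` lying close together. -/
theorem short_block (k : ℕ) : ∃ K : ℝ, 1 ≤ K ∧ ∀ n : ℕ, n ≤ k + 1 → ∀ (P : Fin n → ℝ[X]),
    (∀ i, (P i).natDegree ≤ k) → ∀ a b : ℝ, a < b →
    (∀ i, ∀ t ∈ Set.Icc a b, |(P i).eval t| ≤ 1) →
    ∀ (y : Fin n → ℝ) (N : ℕ), 1 ≤ N → (∀ j, y j ∈ Set.Icc a b) →
    (∀ i j, |y i - y j| ≤ (b - a) / N) →
    |Matrix.det (Matrix.of fun i j => (P i).eval (y j))| * (N : ℝ) ^ (n * (n - 1) / 2) ≤ K := by
  obtain ⟨K, hK1, hK⟩ := taylor_bound k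
  refine ⟨((k : ℝ) + 1) ^ (k + 1) * ((Nat.factorial (k + 1) : ℝ) * K ^ (k + 1)), ?_, ?_⟩
  · have h1 : (1 : ℝ) ≤ ((k : ℝ) + 1) ^ (k + 1) := one_le_pow₀ (by
      have : (0 : ℝ) ≤ k := by positivity
      linarith)
    have h2 : (1 : ℝ) ≤ (Nat.factorial (k + 1) : ℝ) := by
      exact_mod_cast Nat.succ_le_of_lt (Nat.factorial_pos (k + 1))
    have h3 : (1 : ℝ) ≤ K ^ (k + 1) := one_le_pow₀ hK1
    have h4 : 1 ≤ (Nat.factorial (k + 1) : ℝ) * K ^ (k + 1) := one_le_mul_of_one_le_of_one_le h2 h3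
    exact one_le_mul_of_one_le_of_one_le h1 h4
  intro n hn P hdeg a b hab hP y N hN hy hyy
  have hNpos : (0 : ℝ) < N := by exact_mod_cast hN
  have hba : 0 < b - a := sub_pos.2 hab
  have hk1 : (1 : ℝ) ≤ (k : ℝ) + 1 := by
    have : (0 : ℝ) ≤ k := by positivity
    linarith
  rcases Nat.eq_zero_or_pos n with rfl | hn0
  · have h1 : (1 : ℝ) ≤ ((k : ℝ) + 1) ^ (k + 1) := one_le_pow₀ hk1
    have h2 : (1 : ℝ) ≤ (Nat.factorial (k + 1) : ℝ) := by
      exact_mod_cast Nat.succ_le_of_lt (Nat.factorial_pos (k + 1))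
    have h3 : (1 : ℝ) ≤ K ^ (k + 1) := one_le_pow₀ hK1
    have h4 : 1 ≤ (Nat.factorial (k + 1) : ℝ) * K ^ (k + 1) := one_le_mul_of_one_le_of_one_le h2 h3
    have h5 := one_le_mul_of_one_le_of_one_le h1 h4
    simpa using h5
  set j0 : Fin n := ⟨0, hn0⟩ with hj0
  set Q : Fin n → ℝ[X] := fun i => (P i).comp (C a + C (b - a) * X) with hQ
  have hQdeg : ∀ i, (Q i).natDegree ≤ k := by
    intro i
    simp only [hQ]
    refine le_trans natDegree_comp_le ?_
    have : (C a + C (b - a) * X : ℝ[X]).natDegree ≤ 1 := by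
      compute_degree
    calc (P i).natDegree * (C a + C (b - a) * X : ℝ[X]).natDegree ≤ k * 1 :=
          Nat.mul_le_mul (hdeg i) this
      _ = k := mul_one k
  have hQeval : ∀ i t, (Q i).eval t = (P i).eval (a + (b - a) * t) := by
    intro i t
    simp only [hQ, eval_comp, eval_add, eval_C, eval_mul, eval_X]
  have hQb : ∀ i, ∀ t ∈ Set.Icc (0 : ℝ) 1, |(Q i).eval t| ≤ 1 := by
    intro i t ht
    rw [hQeval]
    refine hP i _ ⟨?_, ?_⟩
    · have := mul_nonneg hba.le ht.1; linarith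
    · have := mul_le_mul_of_nonneg_left ht.2 hba.le; linarith
  set u : ℝ := (y j0 - a) / (b - a) with hu
  have humem : u ∈ Set.Icc (0 : ℝ) 1 := by
    refine ⟨div_nonneg (sub_nonneg.2 (hy j0).1) hba.le, ?_⟩
    rw [hu, div_le_one hba]
    linarith [(hy j0).2]
  set h : Fin n → ℝ := fun j => (y j - y j0) / (b - a) with hh
  have hhb : ∀ j, |h j| ≤ 1 / N := by
    intro j
    simp only [hh]
    rw [abs_div, abs_of_pos hba, div_le_div_iff₀ hba hNpos]
    have := hyy j j0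
    rw [le_div_iff₀ hNpos] at this
    linarith
  have hentry : ∀ i j, (P i).eval (y j) =
      ∑ m : Fin (k + 1), (taylor u (Q i)).coeff m * h j ^ (m : ℕ) := by
    intro i j
    have h1 : (taylor u (Q i)).eval (h j) = (P i).eval (y j) := by
      rw [taylor_eval, hQeval]
      congr 1
      simp only [hh, hu]
      field_simp
      ring
    rw [← h1, Polynomial.eval_eq_sum_range' (n := k + 1)
      (by rw [natDegree_taylor]; exact Nat.lt_succ_of_le (hQdeg i)), Finset.sum_range]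
  have hmat : (Matrix.of fun i j => (P i).eval (y j) : Matrix (Fin n) (Fin n) ℝ) =
      Matrix.of fun i j => ∑ m : Fin (k + 1), (taylor u (Q i)).coeff m * h j ^ (m : ℕ) := by
    funext i j
    simp only [Matrix.of_apply]
    exact hentry i j
  have hmain := Short_det (fun i (m : Fin (k + 1)) => (taylor u (Q i)).coeff m) h (1 / N) K
    (by positivity) (by rw [div_le_one hNpos]; exact_mod_cast hN) hK1 hhb
    (fun i m => hK (Q i) (hQdeg i) (hQb i) u humem m)
  rw [hmat]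
  set e := n * (n - 1) / 2 with he
  have hNe : (0 : ℝ) < (N : ℝ) ^ e := by positivity
  have h1 : ((k : ℝ) + 1) ^ n ≤ ((k : ℝ) + 1) ^ (k + 1) := pow_le_pow_right₀ hk1 hn
  have h2 : (Nat.factorial n : ℝ) ≤ (Nat.factorial (k + 1) : ℝ) := by
    exact_mod_cast Nat.factorial_le hn
  have h3 : K ^ n ≤ K ^ (k + 1) := pow_le_pow_right₀ hK1 hn
  have hK0 : 0 < K := by linarith
  calc |Matrix.det (Matrix.of fun i j =>
        ∑ m : Fin (k + 1), (taylor u (Q i)).coeff m * h j ^ (m : ℕ))| * (N : ℝ) ^ e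
      ≤ (((k : ℝ) + 1) ^ n * ((Nat.factorial n : ℝ) * K ^ n) * (1 / (N : ℝ)) ^ e) *
        (N : ℝ) ^ e := mul_le_mul_of_nonneg_right hmain hNe.le
    _ = ((k : ℝ) + 1) ^ n * ((Nat.factorial n : ℝ) * K ^ n) := by
        rw [one_div, inv_pow]; field_simp
    _ ≤ ((k : ℝ) + 1) ^ (k + 1) * ((Nat.factorial (k + 1) : ℝ) * K ^ (k + 1)) := by
        gcongr

end Pool.Agent.H65.CO
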